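import Pool.Agent.Helper73.V7.Pull

/-! Project V7. The elliptic surfaces `y ^ 2 + a₁ x y + a₃ y = x ^ 3 + a₂ x ^ 2 + a₄ x + a₆`, where `aᵢ`
is a polynomial in `w ^ n` of degree at most `i / 2`. -/

set_option autoImplicit false

namespace Pool.Agent.Helper73.V7

open IntermediateField MvPolynomial Pool.Agent.Helper75.QC Pool.Agent.Helper35.V7
  Pool.Agent.Helper9.TR

/-- a polynomial in one of the variables -/
theorem wle_poly {Ω : Type} [Field Ω] {ι : Type} [Fintype ι] {w : ι → ℕ} (i : ι)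
    (p : Polynomial Ω) (d : ℕ) (h : p.natDegree * w i ≤ d) :
    WLE w d (Polynomial.aeval (X i : MvPolynomial ι Ω) p) := by
  rw [Polynomial.aeval_eq_sum_range]
  refine wle_sum _ _ fun k hk => ?_
  rw [MvPolynomial.smul_eq_C_mul]
  refine wle_mono ?_ (wle_mul (wle_C _) (wle_pow (wle_X i) k))
  rw [zero_add]
  have h1 : k ≤ p.natDegree := Nat.lt_succ_iff.1 (Finset.mem_range.1 hk)
  exact (Nat.mul_le_mul_right _ h1).trans h

/-- the equation -/
noncomputable def weier {Ω : Type} [Field Ω] (a₁ a₂ a₃ a₄ a₆ : Polynomial Ω) :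
    MvPolynomial (Fin 3) Ω :=
  X 1 ^ 2 + Polynomial.aeval (X 2) a₁ * (X 0 * X 1) + Polynomial.aeval (X 2) a₃ * X 1 +
    -(X 0 ^ 3) + -(Polynomial.aeval (X 2) a₂ * X 0 ^ 2) + -(Polynomial.aeval (X 2) a₄ * X 0) +
    -(Polynomial.aeval (X 2) a₆)

theorem weier_ne {Ω : Type} [Field Ω] (a₁ a₂ a₃ a₄ a₆ : Polynomial Ω) :
    weier a₁ a₂ a₃ a₄ a₆ ≠ 0 := by
  intro h
  have h1 := congrArg (MvPolynomial.aeval (![0, Polynomial.X, 0] : Fin 3 → Polynomial Ω)) h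
  have hp : ∀ p : Polynomial Ω, MvPolynomial.aeval (![0, Polynomial.X, 0] : Fin 3 → Polynomial Ω)
      (Polynomial.aeval (X 2 : MvPolynomial (Fin 3) Ω) p) = Polynomial.C (p.eval 0) := by
    intro p
    rw [← Polynomial.aeval_algHom_apply, aeval_X]
    show Polynomial.aeval (0 : Polynomial Ω) p = _
    have h2 : (0 : Polynomial Ω) = algebraMap Ω (Polynomial Ω) 0 := (map_zero _).symm
    rw [h2, Polynomial.aeval_algebraMap_apply, Polynomial.coe_aeval_eq_eval]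
    rfl
  simp only [weier, map_add, map_neg, map_mul, map_pow, aeval_X, hp, map_zero,
    Matrix.cons_val_zero, Matrix.cons_val_one] at h1
  have h3 := congrArg (fun q : Polynomial Ω => q.coeff 2) h1
  simp at h3

/-- the two forms of the criterion -/
theorem IsTwist.of_row3 {Ω R M : Type} [Field Ω] [Field R] [Field M] [Algebra Ω M] [Algebra R M]
    (h : Row3 Ω R M) : IsTwist Ω R M := by
  obtain ⟨n, a, b, x, y, z, w, -, -, h3, h4, h5, h6, h7, h8, h9, h10, -, h12, h13⟩ := h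
  exact ⟨n, a, b, x, y, z, w, h7, h8, h9, h10, h12, h3, h4, h5, h6,
    fun N _ _ g v s hv hs => h13 N g v s hv (by rw [hs, mul_pow])⟩

/-- **The elliptic surfaces.** -/
theorem elliptic_data {Ω M : Type} [Field Ω] [Field M] [Algebra Ω M] (n : ℕ)
    (a₁ a₂ a₃ a₄ a₆ : Polynomial Ω) (h₁ : 2 * a₁.natDegree ≤ 1)
    (h₂ : 2 * a₂.natDegree ≤ 2) (h₃ : 2 * a₃.natDegree ≤ 3) (h₄ : 2 * a₄.natDegree ≤ 4)
    (h₆ : 2 * a₆.natDegree ≤ 6) (x y w : M)
    (h : y ^ 2 + Polynomial.aeval (w ^ n) a₁ * x * y + Polynomial.aeval (w ^ n) a₃ * y =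
      x ^ 3 + Polynomial.aeval (w ^ n) a₂ * x ^ 2 + Polynomial.aeval (w ^ n) a₄ * x +
        Polynomial.aeval (w ^ n) a₆) :
    ∃ (a b c : ℕ) (F : MvPolynomial (Fin 3) Ω), 0 < a + b + c ∧ F ≠ 0 ∧
      (∀ m ∈ F.support, a * m 0 + b * m 1 + 2 * c * m 2 ≤ a + b + c) ∧
      aeval ![x, y, w ^ n] F = 0 := by
  refine ⟨2, 3, 1, weier a₁ a₂ a₃ a₄ a₆, by norm_num, weier_ne _ _ _ _ _, ?_, ?_⟩
  · have e0 : WLE ![2, 3, 2] 2 (X 0 : MvPolynomial (Fin 3) Ω) := wle_X 0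
    have e1 : WLE ![2, 3, 2] 3 (X 1 : MvPolynomial (Fin 3) Ω) := wle_X 1
    have e2 : ∀ (p : Polynomial Ω) (d : ℕ), 2 * p.natDegree ≤ d →
        WLE ![2, 3, 2] d (Polynomial.aeval (X 2 : MvPolynomial (Fin 3) Ω) p) := by
      intro p d hd
      refine wle_poly 2 p d ?_
      show p.natDegree * 2 ≤ d
      omega
    have h6 : WLE ![2, 3, 2] 6 (weier a₁ a₂ a₃ a₄ a₆) := by
      refine WLE.add (WLE.add (WLE.add (WLE.add (WLE.add (WLE.add ?_ ?_) ?_) ?_) ?_) ?_) ?_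
      · exact wle_pow e1 2
      · exact wle_mono (by norm_num) (wle_mul (e2 a₁ 1 h₁) (wle_mul e0 e1))
      · exact wle_mul (e2 a₃ 3 h₃) e1
      · exact (wle_pow e0 3).neg
      · exact (wle_mul (e2 a₂ 2 h₂) (wle_pow e0 2)).neg
      · exact (wle_mul (e2 a₄ 4 h₄) e0).neg
      · exact (e2 a₆ 6 h₆).neg
    intro m hm
    have h7 := h6 m hm
    rw [Fin.sum_univ_three] at h7
    exact h7
  · have hp : ∀ p : Polynomial Ω, MvPolynomial.aeval ![x, y, w ^ n]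
        (Polynomial.aeval (X 2 : MvPolynomial (Fin 3) Ω) p) = Polynomial.aeval (w ^ n) p := by
      intro p
      rw [← Polynomial.aeval_algHom_apply, aeval_X]
      rfl
    simp only [weier, map_add, map_neg, map_mul, map_pow, aeval_X, hp,
      Matrix.cons_val_zero, Matrix.cons_val_one]
    linear_combination h

theorem isPullback_elliptic {Ω R M : Type} [Field Ω] [Field R] [Field M] [Algebra Ω M]
    [Algebra R M] (n : ℕ) (a₁ a₂ a₃ a₄ a₆ : Polynomial Ω) (h₁ : 2 * a₁.natDegree ≤ 1)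
    (h₂ : 2 * a₂.natDegree ≤ 2) (h₃ : 2 * a₃.natDegree ≤ 3) (h₄ : 2 * a₄.natDegree ≤ 4)
    (h₆ : 2 * a₆.natDegree ≤ 6) (x y w : M)
    (hR : ∀ r : R, algebraMap R M r ∈ adjoin Ω {x, y, w ^ n}) (hM : adjoin Ω {x, y, w} = ⊤)
    (hn : Module.finrank (adjoin Ω {x, y, w ^ n}) M = n)
    (h : y ^ 2 + Polynomial.aeval (w ^ n) a₁ * x * y + Polynomial.aeval (w ^ n) a₃ * y =
      x ^ 3 + Polynomial.aeval (w ^ n) a₂ * x ^ 2 + Polynomial.aeval (w ^ n) a₄ * x +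
        Polynomial.aeval (w ^ n) a₆) : IsPullback Ω R M := by
  obtain ⟨a, b, c, F, h'⟩ := elliptic_data n a₁ a₂ a₃ a₄ a₆ h₁ h₂ h₃ h₄ h₆ x y w h
  exact ⟨n, a, b, c, F, x, y, w, hR, hM, hn, h'⟩

end Pool.Agent.Helper73.V7
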