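import Pool.Agent.Helper40.SD.CubicSurf
import Pool.Agent.Helper75.WC.RowU

/-!
# Conic bundles

The threefolds `v (1 - v) = c Q(x, y)`, `deg Q ≤ 2`, `c` algebraic over `Ω(x, s)`, are uniruled.
-/

set_option autoImplicit false

namespace Pool.Agent.Helper73.V7

open IntermediateField Pool.Agent.Helper75.QC Pool.Agent.Helper40.SD Pool.Agent.Helper75.WC

/-- conics over `AF Ω S`, in every characteristic -/
theorem conic_all {Ω E : Type} [Field Ω] [Field E] [Algebra Ω E] [IsAlgClosed E] (S : Set E)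
    {A B C μ v : E} (hA : A ∈ AF Ω S) (hB : B ∈ AF Ω S) (hC : C ∈ AF Ω S)
    (h : v * (1 - v) = A + B * μ + C * μ ^ 2) :
    ∃ θ : E, μ ∈ adjoin Ω (Acl Ω S ∪ {θ}) ∧ v ∈ adjoin Ω (Acl Ω S ∪ {θ}) := by
  have hm : ∀ {a : E}, a ∈ AF Ω S → ∀ θ : E, a ∈ adjoin Ω (Acl Ω S ∪ {θ}) := fun ha θ =>
    subset_adjoin Ω _ (Or.inl (mem_AF.1 ha))
  have hs : ∀ θ : E, θ ∈ adjoin Ω (Acl Ω S ∪ {θ}) := fun θ => subset_adjoin Ω _ (Or.inr rfl)
  obtain ⟨v0, hv0, hv0m⟩ : ∃ v0 : E, v0 * (1 - v0) = A ∧ v0 ∈ AF Ω S := by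
    have hd : (Polynomial.X ^ 2 - Polynomial.X + Polynomial.C A : Polynomial E).degree = 2 := by
      compute_degree!
    obtain ⟨v0, h0⟩ := IsAlgClosed.exists_root (Polynomial.X ^ 2 - Polynomial.X +
      Polynomial.C A : Polynomial E) (by rw [hd]; norm_num)
    have h1 : v0 ^ 2 - v0 + A = 0 := by
      simpa [Polynomial.IsRoot.def] using h0
    refine ⟨v0, by linear_combination -h1, AF_closed ?_⟩
    refine ⟨Polynomial.X ^ 2 - Polynomial.X + Polynomial.C (⟨A, hA⟩ : AF Ω S), ?_, ?_⟩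
    · intro h0
      have h2 := congrArg (fun P => Polynomial.coeff P 2) h0
      simp [Polynomial.coeff_X] at h2
    · simp only [map_sub, map_add, map_pow, Polynomial.aeval_X, Polynomial.aeval_C]
      exact h1
  by_cases hμ : μ = 0
  · refine ⟨v, ?_, hs v⟩
    rw [hμ]
    exact zero_mem _
  obtain ⟨θ, hθ⟩ : ∃ θ : E, θ = (v - v0) / μ := ⟨_, rfl⟩
  have hv : v = v0 + θ * μ := by
    rw [hθ, div_mul_cancel₀ _ hμ]
    ring
  have h1 : θ * (1 - 2 * v0) - B = μ * (C + θ ^ 2) := by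
    have h2 : μ * (θ * (1 - 2 * v0) - B - μ * (C + θ ^ 2)) = 0 := by
      rw [hv] at h
      linear_combination h - hv0
    linear_combination (mul_eq_zero.1 h2).resolve_left hμ
  by_cases hd : C + θ ^ 2 = 0
  · have h2 : θ ∈ AF Ω S := by
      refine AF_root (n := 2) (by norm_num) ?_
      have h3 : θ ^ 2 = -C := by linear_combination hd
      rw [h3]
      exact neg_mem hC
    refine ⟨μ, hs μ, ?_⟩
    rw [hv]
    exact add_mem (hm hv0m μ) (mul_mem (hm h2 μ) (hs μ))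
  · have h2 : μ = (θ * (1 - 2 * v0) - B) / (C + θ ^ 2) := by
      rw [eq_div_iff hd, ← h1]
    have h2m : (2 : E) ∈ adjoin Ω (Acl Ω S ∪ {θ}) := by
      have : ((2 : ℕ) : E) ∈ adjoin Ω (Acl Ω S ∪ {θ}) := _root_.natCast_mem _ 2
      simpa using this
    have h3 : μ ∈ adjoin Ω (Acl Ω S ∪ {θ}) := by
      rw [h2]
      exact div_mem (sub_mem (mul_mem (hs θ) (sub_mem (one_mem _) (mul_mem h2m (hm hv0m θ))))
        (hm hB θ)) (add_mem (hm hC θ) (pow_mem (hs θ) 2))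
    refine ⟨θ, h3, ?_⟩
    rw [hv]
    exact add_mem (hm hv0m θ) (mul_mem (hs θ) h3)

/-- **Conic bundles.** -/
theorem uni_conic {Ω N : Type} [Field Ω] [Field N] [Algebra Ω N]
    (Q : MvPolynomial (Fin 2) Ω) (hQ : Q.totalDegree ≤ 2) (x y v s c : N) (hc : c ∈ AF Ω {x, s})
    (h : v * (1 - v) = c * MvPolynomial.aeval ![x, y] Q) (F : Set N)
    (hF : ∀ a ∈ F, a ∈ adjoin Ω (Acl Ω {x, s} ∪ {y, v})) :
    Uniruled Ω (adjoin Ω F : IntermediateField Ω N) 3 := by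
  classical
  set E := AlgebraicClosure N
  let ι : N →ₐ[Ω] E := IsScalarTower.toAlgHom Ω N E
  obtain ⟨S, hS⟩ : ∃ S : Finset E, S = {ι x, ι s} := ⟨_, rfl⟩
  have hSE : (S : Set E) = {ι x, ι s} := by
    rw [hS]
    simp
  -- algebraic elements go to algebraic elements
  have hAF : ∀ a ∈ AF Ω {x, s}, ι a ∈ AF Ω (S : Set E) := by
    intro a ha
    have h1 : adjoin Ω {x, s} ≤ (AF Ω (S : Set E)).comap ι := by
      rw [adjoin_le_iff]
      rintro b (rfl | rfl)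
      · exact subset_AF _ (by rw [hSE]; simp)
      · exact subset_AF _ (by rw [hSE]; simp)
    obtain ⟨p, hp, hpe⟩ := mem_AF.1 ha
    let j : adjoin Ω {x, s} →+* AF Ω (S : Set E) :=
      { toFun := fun b => ⟨ι b, h1 b.2⟩
        map_one' := Subtype.ext (map_one ι)
        map_mul' := fun b c => Subtype.ext (map_mul ι _ _)
        map_zero' := Subtype.ext (map_zero ι)
        map_add' := fun b c => Subtype.ext (map_add ι _ _) }
    apply AF_closed
    refine ⟨p.map j, ?_, ?_⟩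
    · rw [Ne, Polynomial.map_eq_zero]
      exact hp
    · rw [Polynomial.aeval_def, Polynomial.eval₂_map]
      rw [Polynomial.aeval_def] at hpe
      have h2 := congrArg ι hpe
      rw [map_zero] at h2
      have h3 := Polynomial.hom_eval₂ p (algebraMap (adjoin Ω {x, s}) N) (ι : N →+* E) a
      rw [← h2]
      exact h3.symm
  have mx : ι x ∈ AF Ω (S : Set E) := subset_AF _ (by rw [hSE]; simp)
  obtain ⟨M, hM⟩ : ∃ M : IntermediateField Ω E, M = AF Ω (S : Set E) := ⟨_, rfl⟩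
  obtain ⟨P, hP⟩ : ∃ P : Fin 2 → M, P = ![⟨ι x, hM ▸ mx⟩, 0] := ⟨_, rfl⟩
  obtain ⟨d, hd⟩ : ∃ d : Fin 2 → M, d = ![0, 1] := ⟨_, rfl⟩
  have h1 := onLine_cubic M Q (hQ.trans (by norm_num)) P d (ι y)
  have h3 : (onLine (MvPolynomial.map (algebraMap Ω M) Q) P d).coeff 3 = 0 := by
    apply Polynomial.coeff_eq_zero_of_natDegree_lt
    have := natDegree_onLine (MvPolynomial.map (algebraMap Ω M) Q)
      ((totalDegree_map_le _ _).trans hQ) P d
    omega
  rw [h3] at h1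
  have h4 : (fun i => (P i : E) + d i * ι y) = ![ι x, ι y] := by
    funext i
    fin_cases i
    · simp [hP, hd]
    · simp [hP, hd]
  rw [h4, ← map_aeval75 ι x y Q] at h1
  obtain ⟨q0, hq0⟩ : ∃ q0 : M, q0 = (onLine (MvPolynomial.map (algebraMap Ω M) Q) P d).coeff 0 :=
    ⟨_, rfl⟩
  obtain ⟨q1, hq1⟩ : ∃ q1 : M, q1 = (onLine (MvPolynomial.map (algebraMap Ω M) Q) P d).coeff 1 :=
    ⟨_, rfl⟩
  obtain ⟨q2, hq2⟩ : ∃ q2 : M, q2 = (onLine (MvPolynomial.map (algebraMap Ω M) Q) P d).coeff 2 :=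
    ⟨_, rfl⟩
  rw [← hq0, ← hq1, ← hq2] at h1
  have hcM : ι c ∈ AF Ω (S : Set E) := hAF c hc
  have hqm : ∀ q : M, (q : E) ∈ AF Ω (S : Set E) := fun q => hM ▸ q.2
  obtain ⟨θ, hy, hv⟩ := conic_all (Ω := Ω) (S : Set E) (A := ι c * q0) (B := ι c * q1)
    (C := ι c * q2) (μ := ι y) (v := ι v) (mul_mem hcM (hqm q0)) (mul_mem hcM (hqm q1))
    (mul_mem hcM (hqm q2)) (by
      have h5 := congrArg ι h
      rw [map_mul, map_sub, map_one, map_mul, h1] at h5
      rw [h5]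
      simp only [ZeroMemClass.coe_zero, zero_mul, add_zero]
      ring)
  refine ⟨E, inferInstance, inferInstance, ι.comp (adjoin Ω F : IntermediateField Ω N).val, S, θ,
    ?_, fun k => ?_⟩
  · have : S.card ≤ 2 := by
      rw [hS]
      exact Finset.card_le_two
    omega
  · obtain ⟨G, hG⟩ : ∃ G, G = adjoin Ω (Acl Ω (S : Set E) ∪ {θ}) := ⟨_, rfl⟩
    rw [← hG] at hy hv ⊢
    have h5 : adjoin Ω (Acl Ω {x, s} ∪ {y, v}) ≤ G.comap ι := by
      rw [adjoin_le_iff]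
      rintro a (ha | rfl | rfl)
      · have h6 := hAF a (mem_AF.2 ha)
        show ι a ∈ G
        rw [hG]
        exact subset_adjoin Ω _ (Or.inl (mem_AF.1 h6))
      · exact hy
      · exact hv
    have h6 : adjoin Ω F ≤ G.comap ι := by
      rw [adjoin_le_iff]
      exact fun a ha => h5 (hF a ha)
    exact h6 k.2

/-- **The threefolds `v (1 - v) = s ^ m z Q(x, y)`, `z` algebraic over `Ω(x)`.** -/
theorem uni_conc {Ω N : Type} [Field Ω] [Field N] [Algebra Ω N]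
    (Q : MvPolynomial (Fin 2) Ω) (hQ : Q.totalDegree ≤ 2) (m : ℕ) (x y z v s : N)
    (hz : z ∈ AF Ω {x}) (h : v * (1 - v) = s ^ m * (z * MvPolynomial.aeval ![x, y] Q)) :
    Uniruled Ω (adjoin Ω {x, y, z, v, s} : IntermediateField Ω N) 3 := by
  have hx : x ∈ AF Ω {x, s} := subset_AF _ (by simp)
  have hs : s ∈ AF Ω {x, s} := subset_AF _ (by simp)
  have hz' : z ∈ AF Ω {x, s} := AF_mono (by simp) hz
  refine uni_conic Q hQ x y v s (s ^ m * z) (mul_mem (pow_mem hs m) hz') (by rw [h]; ring) _ ?_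
  have hm : ∀ a ∈ AF Ω {x, s}, a ∈ adjoin Ω (Acl Ω {x, s} ∪ {y, v}) := fun a ha =>
    subset_adjoin Ω _ (Or.inl (mem_AF.1 ha))
  rintro a (rfl | rfl | rfl | rfl | rfl)
  · exact hm _ hx
  · exact subset_adjoin Ω _ (Or.inr (by simp))
  · exact hm _ hz'
  · exact subset_adjoin Ω _ (Or.inr (by simp))
  · exact hm _ hs

end Pool.Agent.Helper73.V7
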