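import Pool.Agent.Helper40.SD.Pencil
import Pool.Agent.Helper75.WC.RowU

/-!
# The threefolds `v (1 - v)³ = s⁹ L(x, y) C(x, y)⁵`, `deg L ≤ 3`, `deg C ≤ 3`

With `q = C² s³ / (1 - v)` and `σ = C s` this is the pencil of cubic surfaces
`σ³ = q (C - q³ L)`.
-/

set_option autoImplicit false

namespace Pool.Agent.Helper73.V7

open IntermediateField Pool.Agent.Helper75.QC Pool.Agent.Helper40.SD Pool.Agent.Helper75.WC

/-- **The pencil of cubic surfaces.** -/
theorem uni_five {Ω N : Type} [Field Ω] [IsAlgClosed Ω] [Field N] [Algebra Ω N]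
    (L C : MvPolynomial (Fin 2) Ω) (hL : L.totalDegree ≤ 3) (hC : C.totalDegree ≤ 3)
    (h3 : (3 : Ω) ≠ 0) (x y v s : N) (hs0 : s ≠ 0) (hv1 : 1 - v ≠ 0)
    (hC0 : MvPolynomial.aeval ![x, y] C ≠ 0)
    (hs : v * (1 - v) ^ 3 = s ^ 9 *
      (MvPolynomial.aeval ![x, y] L * MvPolynomial.aeval ![x, y] C ^ 5)) :
    Uniruled Ω (adjoin Ω {x, y, v, s} : IntermediateField Ω N) 3 := by
  classical
  obtain ⟨c, hc⟩ : ∃ c, c = MvPolynomial.aeval ![x, y] C := ⟨_, rfl⟩
  obtain ⟨l, hl⟩ : ∃ l, l = MvPolynomial.aeval ![x, y] L := ⟨_, rfl⟩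
  obtain ⟨q, hq⟩ : ∃ q : N, q = c ^ 2 * s ^ 3 / (1 - v) := ⟨_, rfl⟩
  obtain ⟨σ, hσ⟩ : ∃ σ : N, σ = c * s := ⟨_, rfl⟩
  rw [← hc] at hC0
  rw [← hc, ← hl] at hs
  have hq0 : q ≠ 0 := by
    rw [hq]
    exact div_ne_zero (mul_ne_zero (pow_ne_zero _ hC0) (pow_ne_zero _ hs0)) hv1
  have hσ0 : σ ≠ 0 := by
    rw [hσ]
    exact mul_ne_zero hC0 hs0
  have h1 : s = σ / c := by
    rw [hσ]
    field_simp
  have h2 : v = 1 - c ^ 2 * s ^ 3 / q := by
    have h3 : c ^ 2 * s ^ 3 / q = 1 - v := by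
      rw [div_eq_iff hq0, hq]
      field_simp
    rw [h3]
    ring
  have hcub : σ ^ 3 = q * (c - q ^ 3 * l) := by
    have h3 : q ^ 3 * l = c * v := by
      rw [hq, div_pow, div_mul_eq_mul_div, div_eq_iff (pow_ne_zero _ hv1)]
      linear_combination -c * hs
    have h4 : q * (1 - v) = c ^ 2 * s ^ 3 := by
      rw [hq]
      field_simp
    rw [h3, hσ]
    linear_combination -c * h4
  have hle : (adjoin Ω {x, y, v, s} : IntermediateField Ω N) ≤ adjoin Ω (insert q {x, y, σ}) := by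
    have mx : x ∈ adjoin Ω (insert q {x, y, σ}) := subset_adjoin _ _ (by simp)
    have my : y ∈ adjoin Ω (insert q {x, y, σ}) := subset_adjoin _ _ (by simp)
    have mq : q ∈ adjoin Ω (insert q {x, y, σ}) := subset_adjoin _ _ (by simp)
    have mσ : σ ∈ adjoin Ω (insert q {x, y, σ}) := subset_adjoin _ _ (by simp)
    have mc : c ∈ adjoin Ω (insert q {x, y, σ}) := by
      rw [hc]
      exact mem_valr75 C x y _ mx my
    have ms : s ∈ adjoin Ω (insert q {x, y, σ}) := by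
      rw [h1]
      exact div_mem mσ mc
    have mv : v ∈ adjoin Ω (insert q {x, y, σ}) := by
      rw [h2]
      exact sub_mem (one_mem _) (div_mem (mul_mem (pow_mem mc _) (pow_mem ms _)) mq)
    rw [adjoin_le_iff]
    rintro a (rfl | rfl | rfl | rfl)
    · exact mx
    · exact my
    · exact mv
    · exact ms
  refine uniruled_of_hom (inclusion hle) ?_
  set E := AlgebraicClosure N
  let ι : N →ₐ[Ω] E := IsScalarTower.toAlgHom Ω N E
  refine uni_family ι q {x, y, σ} ?_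
  have mq : ι q ∈ AF Ω {ι q} := subset_AF _ (by simp)
  set Ω' := AF Ω {ι q} with hΩ'
  set K' := adjoin Ω' (ι '' {x, y, σ}) with hK'
  have mx : ι x ∈ K' := subset_adjoin _ _ ⟨x, by simp, rfl⟩
  have my : ι y ∈ K' := subset_adjoin _ _ ⟨y, by simp, rfl⟩
  have mσ : ι σ ∈ K' := subset_adjoin _ _ ⟨σ, by simp, rfl⟩
  have hev : ∀ G : MvPolynomial (Fin 2) Ω, ((MvPolynomial.aeval ![(⟨ι x, mx⟩ : K'), ⟨ι y, my⟩]
      (MvPolynomial.map (algebraMap Ω Ω') G) : K') : E) = ι (MvPolynomial.aeval ![x, y] G) := by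
    intro G
    rw [MvPolynomial.aeval_map_algebraMap, map_aeval75 ι x y G]
    exact map_aeval75 (K'.val.restrictScalars Ω) (⟨ι x, mx⟩ : K') ⟨ι y, my⟩ G
  obtain ⟨q', hq'⟩ : ∃ q' : Ω', q' = ⟨ι q, mq⟩ := ⟨_, rfl⟩
  have hqE : algebraMap Ω' E q' = ι q := by
    rw [hq']
    rfl
  obtain ⟨A, hA⟩ : ∃ A : MvPolynomial (Fin 2) Ω', A = -(MvPolynomial.C q' *
      (MvPolynomial.map (algebraMap Ω Ω') C - MvPolynomial.C (q' ^ 3) *
        MvPolynomial.map (algebraMap Ω Ω') L)) := ⟨_, rfl⟩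
  have hAE : ((MvPolynomial.aeval ![(⟨ι x, mx⟩ : K'), ⟨ι y, my⟩] A : K') : E) = -(ι σ) ^ 3 := by
    rw [hA]
    simp only [map_neg, map_mul, map_sub, MvPolynomial.aeval_C]
    push_cast
    rw [hev, hev, hqE, ← hc, ← hl, ← map_pow ι σ, hcub]
    simp only [map_mul, map_sub, map_pow]
  refine uni_cubic (1 : Ω') one_ne_zero A 0 ?_ (by simp) ?_
    ![(⟨ι x, mx⟩ : K'), ⟨ι y, my⟩] (⟨ι σ, mσ⟩ : K') ?_ ?_
  · rw [hA, MvPolynomial.totalDegree_neg]
    refine (MvPolynomial.totalDegree_mul _ _).trans ?_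
    rw [MvPolynomial.totalDegree_C, zero_add]
    refine (MvPolynomial.totalDegree_sub _ _).trans (max_le ((totalDegree_map_le _ _).trans hC) ?_)
    refine (MvPolynomial.totalDegree_mul _ _).trans ?_
    rw [MvPolynomial.totalDegree_C, zero_add]
    exact (totalDegree_map_le _ _).trans hL
  · have hA0 : A ≠ 0 := by
      intro h0
      rw [h0, map_zero] at hAE
      have h4 : (ι σ) ^ 3 = 0 := by
        have h5 : (((0 : K') : E)) = 0 := rfl
        rw [h5] at hAE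
        exact neg_eq_zero.1 hAE.symm
      exact hσ0 ((map_eq_zero ι).1 (pow_eq_zero_iff (by norm_num) |>.1 h4))
    have h27 : (27 : MvPolynomial (Fin 2) Ω') ≠ 0 := by
      have e27 : (27 : MvPolynomial (Fin 2) Ω') = MvPolynomial.C (algebraMap Ω Ω' (3 ^ 3)) := by
        rw [map_pow, map_ofNat, map_pow, map_ofNat]
        norm_num
      rw [e27, Ne, MvPolynomial.C_eq_zero, map_eq_zero]
      exact pow_ne_zero _ h3
    rw [MvPolynomial.C_1, mul_one, zero_pow (by norm_num), mul_zero, zero_sub]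
    exact neg_ne_zero.2 (mul_ne_zero h27 (pow_ne_zero _ hA0))
  · apply Subtype.ext
    rw [map_one, one_mul, map_zero, zero_mul, sub_zero]
    push_cast
    rw [hAE]
    exact add_neg_cancel _
  · apply lift_injective K'
    rw [lift_top, lift_adjoin]
    refine Eq.trans ?_ hK'.symm
    congr 1
    ext a
    simp only [Set.image_union, Set.image_singleton, Set.mem_union, Set.mem_image,
      Set.mem_range, Set.mem_singleton_iff, Set.mem_insert_iff]
    constructor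
    · rintro (⟨b, ⟨i, rfl⟩, rfl⟩ | rfl)
      · fin_cases i
        · exact ⟨x, by simp, rfl⟩
        · exact ⟨y, by simp, rfl⟩
      · exact ⟨σ, by simp, rfl⟩
    · rintro ⟨b, rfl | rfl | rfl, rfl⟩
      · exact Or.inl ⟨_, ⟨0, rfl⟩, rfl⟩
      · exact Or.inl ⟨_, ⟨1, rfl⟩, rfl⟩
      · exact Or.inr rfl

end Pool.Agent.Helper73.V7
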