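import Pool.Agent.Helper35.V7.Row3
import Pool.Agent.Helper15.WC.Step8
import Pool.Agent.Helper73.V7.Five
import Pool.Agent.Helper73.V7.Conc

/-! Project V7. The types `1, 2 | 5, 5, 5` and `1, 4, 7 | 3, 3` for `n = 9`. -/

set_option autoImplicit false

namespace Pool.Agent.Helper73.V7

open IntermediateField MvPolynomial Pool.Agent.Helper40.SD Pool.Agent.Helper75.QC
  Pool.Agent.Helper75.WC Pool.Agent.Helper35.V7

/-- **The intermediate field of degree three.** -/
theorem third_field {Ω R M : Type} [Field Ω] [Field R] [Field M] [Algebra Ω R]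
    [Algebra Ω M] [Algebra R M] [IsScalarTower Ω R M] [FiniteDimensional R M]
    {w : M} (hw : adjoin R {w} = ⊤) (hfin : Module.finrank R M = 9) (S : Set M)
    (hR : ∀ a : R, algebraMap R M a ∈ adjoin Ω S) {z : M} (hz : z ∈ adjoin Ω S) {c : R}
    (hzc : z ^ 3 = algebraMap R M c) (hS : ∀ s ∈ S, s ∈ adjoin R {z}) (hw3 : w ^ 3 ∈ adjoin Ω S) :
    Module.finrank (adjoin Ω S) M = 3 ∧
      ∀ A : IntermediateField Ω M, (∀ s ∈ S, s ∈ A) → w ∈ A → A = ⊤ := by
  refine ⟨?_, fun A hA hwA => ?_⟩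
  · obtain ⟨B, hB⟩ : ∃ B : IntermediateField Ω M, B = adjoin Ω S := ⟨_, rfl⟩
    rw [← hB] at hR hz hw3 ⊢
    let _ : Algebra R B := RingHom.toAlgebra
      ({ toFun := fun r => ⟨algebraMap R M r, hR r⟩
         map_one' := Subtype.ext (map_one _)
         map_mul' := fun a b => Subtype.ext (map_mul _ a b)
         map_zero' := Subtype.ext (map_zero _)
         map_add' := fun a b => Subtype.ext (map_add _ a b) } : R →+* B)
    have _ : IsScalarTower R B M := IsScalarTower.of_algebraMap_eq fun r => rfl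
    have hfd : FiniteDimensional B M := FiniteDimensional.right R B M
    have hfd' : FiniteDimensional R B := FiniteDimensional.left R B M
    have hmul := Module.finrank_mul_finrank R B M
    rw [hfin] at hmul
    -- `M = B(w)`
    have hBw : adjoin B {w} = ⊤ := by
      have h1 : adjoin R {w} ≤ (adjoin B {w}).restrictScalars R := by
        rw [adjoin_le_iff]
        rintro s rfl
        exact subset_adjoin B _ rfl
      rw [hw] at h1
      rw [eq_top_iff]
      intro k _
      exact h1 (mem_top (x := k))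
    have h4 : Module.finrank B M ≤ 3 :=
      finrank_le_of_pow hBw (by norm_num) (c := ⟨w ^ 3, hw3⟩) rfl
    -- `B = R(z)`
    have hBr : adjoin R {(⟨z, hz⟩ : B)} = ⊤ := by
      have h1 : ∀ k (hk : k ∈ adjoin Ω S),
          (⟨k, by rw [hB]; exact hk⟩ : B) ∈ adjoin R {(⟨z, hz⟩ : B)} := by
        have h2 : adjoin Ω S ≤
            ((adjoin R {(⟨z, hz⟩ : B)}).map (IsScalarTower.toAlgHom R B M)).restrictScalars Ω := by
          rw [adjoin_le_iff]
          intro s hs
          have h3 : adjoin R {z} ≤ (adjoin R {(⟨z, hz⟩ : B)}).map (IsScalarTower.toAlgHom R B M) := by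
            rw [adjoin_le_iff]
            rintro s rfl
            exact ⟨⟨s, hz⟩, subset_adjoin R _ rfl, rfl⟩
          exact h3 (hS s hs)
        intro k hk
        obtain ⟨b, hb, hb'⟩ := h2 hk
        have h3 : b = ⟨k, by rw [hB]; exact hk⟩ := Subtype.ext hb'
        rw [← h3]
        exact hb
      rw [eq_top_iff]
      intro k _
      exact h1 k.1 (by rw [← hB]; exact k.2)
    have h2 : Module.finrank R B ≤ 3 :=
      finrank_le_of_pow hBr (by norm_num) (c := c) (Subtype.ext hzc)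
    interval_cases h : Module.finrank R B <;> omega
  · have h1 : adjoin Ω S ≤ A := adjoin_le_iff.2 hA
    let A' : IntermediateField R M :=
      { A.toSubfield with
        algebraMap_mem' := fun a => h1 (hR a) }
    have h2 : adjoin R {w} ≤ A' := by
      rw [adjoin_le_iff]
      rintro s rfl
      exact hwA
    rw [hw] at h2
    rw [eq_top_iff]
    intro k _
    exact h2 (mem_top (x := k))

/-- two lines are the axes, or there is a coordinate `x` with both in `Ω(x)` -/
theorem two_lines {Ω R : Type} [Field Ω] [Field R] [Algebra Ω R] {x y : R}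
    (hR : adjoin Ω {x, y} = ⊤) {L1 L4 Q : MvPolynomial (Fin 2) Ω} (h1 : L1.totalDegree ≤ 1)
    (h4 : L4.totalDegree ≤ 1) {d : ℕ} (hQ : Q.totalDegree ≤ d) :
    (∃ Q' : MvPolynomial (Fin 2) Ω, adjoin Ω {aeval ![x, y] L1, aeval ![x, y] L4} = ⊤ ∧
      Q'.totalDegree ≤ d ∧
      aeval ![aeval ![x, y] L1, aeval ![x, y] L4] Q' = aeval ![x, y] Q) ∨
    ∃ (x' y' : R) (Q' : MvPolynomial (Fin 2) Ω), adjoin Ω {x', y'} = ⊤ ∧ Q'.totalDegree ≤ d ∧
      aeval ![x, y] L1 ∈ adjoin Ω {x'} ∧ aeval ![x, y] L4 ∈ adjoin Ω {x'} ∧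
      aeval ![x', y'] Q' = aeval ![x, y] Q := by
  classical
  by_cases hc1 : L1.totalDegree ≤ 0
  · obtain ⟨c1, hc1⟩ := aeval_const x y hc1
    by_cases hc4 : L4.totalDegree ≤ 0
    · obtain ⟨c4, hc4⟩ := aeval_const x y hc4
      exact Or.inr ⟨x, y, Q, hR, hQ, by rw [hc1]; exact IntermediateField.algebraMap_mem _ _,
        by rw [hc4]; exact IntermediateField.algebraMap_mem _ _, rfl⟩
    · obtain ⟨x', y', A, B, hR', hl, hA, hB, hx, hy⟩ := new_axis hR h4 hc4
      obtain ⟨Q', hQ', hQ''⟩ := moved_aff hA hB hx hy Q hQ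
      exact Or.inr ⟨x', y', Q', hR', hQ', by rw [hc1]; exact IntermediateField.algebraMap_mem _ _,
        by rw [hl]; exact subset_adjoin _ _ rfl, hQ''⟩
  · obtain ⟨x', y', A, B, hR', hl, hA, hB, hx, hy⟩ := new_axis hR h1 hc1
    obtain ⟨Q', hQ', hQ''⟩ := moved_aff hA hB hx hy Q hQ
    obtain ⟨L', hL', hL''⟩ := moved_aff hA hB hx hy L4 h4
    obtain ⟨α, β, γ, rfl⟩ := line_form hL'
    have hev : aeval ![x', y'] (C α * X 0 + C β * X 1 + C γ : MvPolynomial (Fin 2) Ω) =
        algebraMap Ω R α * x' + algebraMap Ω R β * y' + algebraMap Ω R γ := by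
      simp
    rw [hev] at hL''
    by_cases hβ : β = 0
    · refine Or.inr ⟨x', y', Q', hR', hQ', by rw [hl]; exact subset_adjoin _ _ rfl, ?_, hQ''⟩
      rw [← hL'', hβ, map_zero, zero_mul, add_zero]
      exact add_mem (mul_mem (IntermediateField.algebraMap_mem _ _) (subset_adjoin _ _ rfl))
        (IntermediateField.algebraMap_mem _ _)
    · left
      have hβR : algebraMap Ω R β ≠ 0 := by simpa using hβ
      obtain ⟨Y, hY⟩ : ∃ Y, Y = aeval ![x, y] L4 := ⟨_, rfl⟩
      rw [← hY] at hL''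
      rw [hl, ← hY]
      have hy' : y' = (Y - algebraMap Ω R α * x' - algebraMap Ω R γ) / algebraMap Ω R β := by
        rw [← hL'']
        field_simp
        ring
      have hdeg : (C β⁻¹ * (C (-γ) + C (-α) * X 0 + C 1 * X 1) :
          MvPolynomial (Fin 2) Ω).totalDegree ≤ 1 := by
        refine (totalDegree_mul _ _).trans ?_
        rw [totalDegree_C, zero_add]
        refine (totalDegree_add _ _).trans (max_le ((totalDegree_add _ _).trans (max_le ?_ ?_)) ?_)
        · rw [totalDegree_C]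
          omega
        · refine (totalDegree_mul _ _).trans ?_
          rw [totalDegree_C, zero_add]
          exact (totalDegree_X 0).le
        · refine (totalDegree_mul _ _).trans ?_
          rw [totalDegree_C, zero_add]
          exact (totalDegree_X 1).le
      obtain ⟨Q2, hQ2, hQ2'⟩ := moved_aff (x := x') (y := y') (x' := x') (y' := Y)
        (A := X 0) (B := C β⁻¹ * (C (-γ) + C (-α) * X 0 + C 1 * X 1)) (totalDegree_X 0).le hdeg
        (by rw [aeval_X]; rfl) (by
          simp only [map_mul, map_add, aeval_C, aeval_X, map_neg, map_one, map_inv₀]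
          change _ * (-algebraMap Ω R γ + -algebraMap Ω R α * x' + 1 * Y) = _
          rw [hy']
          field_simp
          ring) Q' hQ'
      refine ⟨Q2, ?_, hQ2, by rw [hQ2', hQ'']⟩
      rw [eq_top_iff, ← hR', adjoin_le_iff]
      have m1 : x' ∈ adjoin Ω {x', Y} := subset_adjoin _ _ (by simp)
      have m2 : Y ∈ adjoin Ω {x', Y} := subset_adjoin _ _ (by simp)
      intro z hz
      rcases hz with hz | hz
      · rwa [hz]
      · rw [Set.mem_singleton_iff] at hz
        rw [SetLike.mem_coe, hz, hy']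
        exact div_mem (sub_mem (sub_mem m2 (mul_mem (IntermediateField.algebraMap_mem _ _) m1))
          (IntermediateField.algebraMap_mem _ _)) (IntermediateField.algebraMap_mem _ _)

/-- the polynomial `x ^ 2 Q(x, z ^ 3 / x)` -/
noncomputable def blow {Ω : Type} [Field Ω] (Q : MvPolynomial (Fin 2) Ω) :
    MvPolynomial (Fin 2) Ω :=
  ∑ m ∈ Q.support, C (Q.coeff m) * (X 0 ^ (2 + m 0 - m 1) * X 1 ^ (3 * m 1))

theorem aeval_blow {Ω A : Type} [Field Ω] [Field A] [Algebra Ω A] {Q : MvPolynomial (Fin 2) Ω}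
    (hQ : Q.totalDegree ≤ 2) {x z : A} (hx : x ≠ 0) :
    aeval ![x, z] (blow Q) = x ^ 2 * aeval ![x, z ^ 3 / x] Q := by
  classical
  have h2 : aeval ![x, z ^ 3 / x] Q = ∑ m ∈ Q.support, algebraMap Ω A (Q.coeff m) *
      (x ^ m 0 * (z ^ 3 / x) ^ m 1) := by
    rw [aeval_def, eval₂_eq']
    refine Finset.sum_congr rfl fun m _ => ?_
    rw [Fin.prod_univ_two]
    rfl
  rw [h2, Finset.mul_sum]
  unfold blow
  rw [map_sum]
  refine Finset.sum_congr rfl fun m hm => ?_
  have h1 : m 0 + m 1 ≤ 2 := by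
    have := (le_totalDegree hm).trans hQ
    rwa [Finsupp.sum_fintype _ _ (fun _ => rfl), Fin.sum_univ_two] at this
  rw [map_mul, map_mul, map_pow, map_pow, aeval_X, aeval_X, aeval_C]
  change _ * (x ^ (2 + m 0 - m 1) * z ^ (3 * m 1)) = _
  obtain ⟨k, hk⟩ : ∃ k, 2 + m 0 = k + m 1 := ⟨2 + m 0 - m 1, by omega⟩
  have h3 : 2 + m 0 - m 1 = k := by omega
  rw [h3, div_pow, ← pow_mul]
  have h4 : x ^ 2 * x ^ m 0 = x ^ k * x ^ m 1 := by rw [← pow_add, ← pow_add, hk]
  have h5 : x ^ m 1 ≠ 0 := pow_ne_zero _ hx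
  calc _ = algebraMap Ω A (Q.coeff m) * z ^ (3 * m 1) * (x ^ k * x ^ m 1) / x ^ m 1 := by
        field_simp
    _ = _ := by
        rw [← h4]
        field_simp

theorem wd_blow {Ω : Type} [Field Ω] {Q : MvPolynomial (Fin 2) Ω} (hQ : Q.totalDegree ≤ 2) :
    WD ![3, 2] 12 (blow Q) := by
  classical
  unfold blow
  refine wd_sum _ _ fun m hm => ?_
  have h1 : m 0 + m 1 ≤ 2 := by
    have := (le_totalDegree hm).trans hQ
    rwa [Finsupp.sum_fintype _ _ (fun _ => rfl), Fin.sum_univ_two] at this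
  have h2 : WD ![3, 2] (0 + ((2 + m 0 - m 1) * 3 + (3 * m 1) * 2))
      (C (Q.coeff m) * (X 0 ^ (2 + m 0 - m 1) * X 1 ^ (3 * m 1)) : MvPolynomial (Fin 2) Ω) :=
    WD.mul (WD.C _) (((WD.X 0).pow _).mul ((WD.X 1).pow _))
  exact h2.mono (by omega)

end Pool.Agent.Helper73.V7

namespace Pool.Agent.Helper75.WC

open IntermediateField MvPolynomial Pool.Agent.Helper40.SD Pool.Agent.Helper75.QC
  Pool.Agent.Helper35.V7 Pool.Agent.Helper73.V7

variable {Ω R M : Type} [Field Ω] [IsAlgClosed Ω] [Field R] [Field M] [Algebra Ω R]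
    [Algebra Ω M] [Algebra R M] [IsScalarTower Ω R M] [FiniteDimensional R M] [IsGalois R M]

/-- **The type `1, 2 | 5, 5, 5`**, the component with the exponent `2` is at infinity. -/
theorem Rep.step9_five {D : ℕ → ℕ} (H : Rep Ω R M 9 D) (hfin : Module.finrank R M = 9)
    {t e1 k : ℕ} (ht : t.Coprime 9) (he1 : e1 < 9) (hk : k < 9) (h1 : (t * e1) % 9 = 1)
    (h2 : (t * k) % 9 = 5) (hD : ∀ e < 9, e ≠ e1 → e ≠ k → D e = 0) (hd1 : D e1 ≤ 3)
    (hd2 : D k ≤ 3) : Row3 Ω R M := by
  have hn1 : e1 ≠ k := by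
    rintro rfl
    omega
  obtain ⟨b, hb⟩ : ∃ b : ℕ → ℕ, b = fun e => if e = e1 then 1 else if e = k then 5 else 0 :=
    ⟨_, rfl⟩
  have be1 : b e1 = 1 := by rw [hb]; simp
  have bk : b k = 5 := by rw [hb]; simp [Ne.symm hn1]
  obtain ⟨w, hw, hw9⟩ := H.twist (by norm_num) ht (fun _ => 0) b (fun e he => by
    by_cases e_1 : e = e1
    · subst e_1
      rw [be1, Nat.add_zero]
      exact Or.inr h1
    by_cases e_2 : e = k
    · subst e_2
      rw [bk, Nat.add_zero]
      exact Or.inr h2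
    · exact Or.inl (hD e he e_1 e_2))
  obtain ⟨k2, hk2, hn2, hn3⟩ : ∃ k2, k2 < 9 ∧ e1 ≠ k2 ∧ k ≠ k2 := by
    by_cases a : e1 ≠ 0 ∧ k ≠ 0
    · exact ⟨0, by norm_num, a.1, a.2⟩
    by_cases b : e1 ≠ 1 ∧ k ≠ 1
    · exact ⟨1, by norm_num, b.1, b.2⟩
    · exact ⟨2, by norm_num, by omega, by omega⟩
  have h0 : prodP 9 H.P (fun _ => 0) = 1 := by
    unfold prodP
    simp
  have bk2 : b k2 = 0 := by rw [hb]; simp [hn2.symm, hn3.symm]
  rw [h0, map_one, map_one, mul_one, prodP_three he1 hk hk2 hn1 hn2 hn3 (fun e _ e_1 e_2 _ => by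
    rw [hb]; simp [e_1, e_2]), be1, bk, bk2, pow_zero, mul_one, pow_one, map_mul, map_pow,
    map_mul, map_pow, ← aeval_map75, ← aeval_map75] at hw9
  have hwn : w ^ 9 ∈ adjoin Ω {algebraMap R M H.x, algebraMap R M H.y} := by
    have m1 : algebraMap R M H.x ∈ adjoin Ω {algebraMap R M H.x, algebraMap R M H.y} :=
      subset_adjoin _ _ (by simp)
    have m2 : algebraMap R M H.y ∈ adjoin Ω {algebraMap R M H.x, algebraMap R M H.y} :=
      subset_adjoin _ _ (by simp)
    rw [hw9]
    exact mul_mem (mem_valr75 _ _ _ _ m1 m2) (pow_mem (mem_valr75 _ _ _ _ m1 m2) _)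
  obtain ⟨-, htop, hdeg, hcast, hw0, hRm⟩ := cyc_data H.x H.y H.gen w hw hfin hwn
  refine Row3.of_rowDataM ⟨9, 1, 3, algebraMap R M H.x, algebraMap R M H.y, w, by norm_num, hcast,
    by norm_num, by norm_num, by norm_num, by norm_num, hRm, htop, hdeg, hw0 (by norm_num), hwn,
    fun N _ _ g v s hv hs => ?_⟩
  have hv0 : v ≠ 0 := by
    rintro rfl
    exact hv isAlgebraic_zero
  have hv1 : 1 - v ≠ 0 := by
    intro h
    have h2 : v = 1 := by linear_combination -h
    rw [h2] at hv
    exact hv (isAlgebraic_algebraMap (1 : g.fieldRange))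
  have hs0 : s ≠ 0 := by
    rintro rfl
    rw [zero_pow (by norm_num), zero_mul] at hs
    exact mul_ne_zero (pow_ne_zero _ hv0) (pow_ne_zero _ hv1) hs
  have h3 : (3 : Ω) ≠ 0 := by
    intro h3
    apply hcast
    have h9 : ((9 : ℕ) : Ω) = 3 * 3 := by norm_num
    rw [h9, h3, zero_mul]
  refine uni_five (H.P e1) (H.P k) ((H.deg e1).trans hd1) ((H.deg k).trans hd2) h3
    (g (algebraMap R M H.x)) (g (algebraMap R M H.y)) v s hs0 hv1 ?_ ?_
  · rw [← map_aeval75, aeval_map75]
    exact (map_ne_zero g).2 ((map_ne_zero (algebraMap R M)).2 (H.ne k))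
  · rw [pow_one] at hs
    rw [hs, ← map_pow g, hw9, map_mul, map_pow, map_aeval75, map_aeval75]

/-- **The type `1, 4, 7 | 3, 3`**, the component with the exponent `7` is at infinity. -/
theorem Rep.step9_seven {D : ℕ → ℕ} (H : Rep Ω R M 9 D) (hfin : Module.finrank R M = 9)
    {t e1 e4 k : ℕ} (ht : t.Coprime 9) (he1 : e1 < 9) (he4 : e4 < 9) (hk : k < 9)
    (h1 : (t * e1) % 9 = 1) (h4 : (t * e4) % 9 = 4) (h2 : (t * k) % 9 = 3)
    (hD : ∀ e < 9, e ≠ e1 → e ≠ e4 → e ≠ k → D e = 0) (hd1 : D e1 ≤ 1) (hd4 : D e4 ≤ 1)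
    (hd2 : D k ≤ 2) : LstN Ω R M := by
  have hn1 : e1 ≠ e4 := by
    rintro rfl
    omega
  have hn2 : e1 ≠ k := by
    rintro rfl
    omega
  have hn3 : e4 ≠ k := by
    rintro rfl
    omega
  obtain ⟨b, hb⟩ : ∃ b : ℕ → ℕ, b = fun e => if e = e1 then 1 else if e = e4 then 4 else
    if e = k then 3 else 0 := ⟨_, rfl⟩
  have be1 : b e1 = 1 := by rw [hb]; simp
  have be4 : b e4 = 4 := by rw [hb]; simp [Ne.symm hn1]
  have bk : b k = 3 := by rw [hb]; simp [Ne.symm hn2, Ne.symm hn3]
  obtain ⟨w, hw, hw9⟩ := H.twist (by norm_num) ht (fun _ => 0) b (fun e he => by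
    by_cases e_1 : e = e1
    · subst e_1
      rw [be1, Nat.add_zero]
      exact Or.inr h1
    by_cases e_2 : e = e4
    · subst e_2
      rw [be4, Nat.add_zero]
      exact Or.inr h4
    by_cases e_3 : e = k
    · subst e_3
      rw [bk, Nat.add_zero]
      exact Or.inr h2
    · exact Or.inl (hD e he e_1 e_2 e_3))
  have h0 : prodP 9 H.P (fun _ => 0) = 1 := by
    unfold prodP
    simp
  rw [h0, map_one, map_one, mul_one, prodP_three he1 he4 hk hn1 hn2 hn3 (fun e _ e_1 e_2 e_3 => by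
    rw [hb]; simp [e_1, e_2, e_3]), be1, be4, bk, pow_one] at hw9
  simp only [map_mul, map_pow] at hw9
  obtain ⟨l1, hl1⟩ : ∃ l1 : R, l1 = aeval ![H.x, H.y] (H.P e1) := ⟨_, rfl⟩
  obtain ⟨l4, hl4⟩ : ∃ l4 : R, l4 = aeval ![H.x, H.y] (H.P e4) := ⟨_, rfl⟩
  obtain ⟨q, hq⟩ : ∃ q : R, q = aeval ![H.x, H.y] (H.P k) := ⟨_, rfl⟩
  have hl10 : l1 ≠ 0 := hl1 ▸ H.ne e1
  have hl40 : l4 ≠ 0 := hl4 ▸ H.ne e4
  have hq0 : q ≠ 0 := hq ▸ H.ne k
  have hl1M : algebraMap R M l1 ≠ 0 := (map_ne_zero _).2 hl10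
  have hl4M : algebraMap R M l4 ≠ 0 := (map_ne_zero _).2 hl40
  have hqM : algebraMap R M q ≠ 0 := (map_ne_zero _).2 hq0
  rw [← hl1, ← hl4, ← hq] at hw9
  obtain ⟨z, hz⟩ : ∃ z : M, z = w ^ 3 / (algebraMap R M l4 * algebraMap R M q) := ⟨_, rfl⟩
  have hden : algebraMap R M l4 * algebraMap R M q ≠ 0 := mul_ne_zero hl4M hqM
  have hw3 : w ^ 3 = z * (algebraMap R M l4 * algebraMap R M q) := by
    rw [hz, div_mul_cancel₀ _ hden]
  have hz3 : z ^ 3 = algebraMap R M (l1 * l4) := by
    rw [hz, div_pow, div_eq_iff (pow_ne_zero _ hden), ← pow_mul, hw9, map_mul]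
    ring
  have hz0 : z ≠ 0 := by
    rintro rfl
    rw [zero_pow (by norm_num), map_mul] at hz3
    exact mul_ne_zero hl1M hl4M hz3.symm
  have hw0 : w ≠ 0 := by
    rintro rfl
    rw [zero_pow (by norm_num)] at hw3
    exact mul_ne_zero hz0 hden hw3.symm
  have hzR : z ∈ adjoin R {z} := subset_adjoin _ _ rfl
  rcases two_lines H.gen ((H.deg e1).trans hd1) ((H.deg e4).trans hd4) ((H.deg k).trans hd2) with
    ⟨Q, hgen, hQ, hQq⟩ | ⟨x, y, Q, hgen, hQ, hx1, hx4, hQq⟩
  · -- the lines are the axes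
    left
    rw [← hl1, ← hl4] at hgen hQq
    rw [← hq] at hQq
    obtain ⟨x, hx⟩ : ∃ x : M, x = algebraMap R M l1 := ⟨_, rfl⟩
    have mx : x ∈ adjoin Ω {x, z} := subset_adjoin _ _ (by simp)
    have mz : z ∈ adjoin Ω {x, z} := subset_adjoin _ _ (by simp)
    have hx0 : x ≠ 0 := hx ▸ hl1M
    have hl4z : algebraMap R M l4 = z ^ 3 / x := by
      rw [hz3, map_mul, ← hx]
      field_simp
    have hRm : ∀ a : R, algebraMap R M a ∈ adjoin Ω {x, z} := by
      intro a
      have h3 : adjoin Ω {l1, l4} ≤ (adjoin Ω {x, z}).comap (IsScalarTower.toAlgHom Ω R M) := by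
        rw [adjoin_le_iff]
        have n1 : algebraMap R M l1 ∈ adjoin Ω {x, z} := by
          rw [← hx]
          exact mx
        have n2 : algebraMap R M l4 ∈ adjoin Ω {x, z} := by
          rw [hl4z]
          exact div_mem (pow_mem mz _) mx
        rintro s (rfl | rfl)
        · exact n1
        · exact n2
      rw [hgen] at h3
      exact h3 (mem_top (x := a))
    have hw3m : w ^ 3 ∈ adjoin Ω {x, z} := by
      rw [hw3]
      exact mul_mem mz (mul_mem (hRm _) (hRm _))
    obtain ⟨hf3, hgen3⟩ := third_field hw hfin {x, z} hRm mz hz3 (by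
      rintro s (rfl | rfl)
      · rw [hx]
        exact IntermediateField.algebraMap_mem _ _
      · exact hzR) hw3m
    refine ⟨x, z, w * x / z, hRm, ?_, Or.inl ?_⟩
    · refine hgen3 _ ?_ ?_
      · rintro s (rfl | rfl)
        · exact subset_adjoin _ _ (by simp)
        · exact subset_adjoin _ _ (by simp)
      · have m1 : x ∈ adjoin Ω {x, z, w * x / z} := subset_adjoin _ _ (by simp)
        have m2 : z ∈ adjoin Ω {x, z, w * x / z} := subset_adjoin _ _ (by simp)
        have m3 : w * x / z ∈ adjoin Ω {x, z, w * x / z} := subset_adjoin _ _ (by simp)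
        have h5 : w = w * x / z * z / x := by field_simp
        exact (congrArg (· ∈ adjoin Ω {x, z, w * x / z}) h5).mpr (div_mem (mul_mem m3 m2) m1)
    · rw [hf3]
      refine ⟨3, 2, 4, 2, 1, X 1 * blow Q, 1, by norm_num, Or.inl (by norm_num),
        degLE_wd (K := 2 + 12) ((WD.X 1).mul (wd_blow hQ)) (by norm_num),
        Or.inl ⟨Or.inl rfl, degLE_wd (K := 0) (WD.C 1) (by norm_num), ?_, ?_⟩⟩
      · rw [map_one]
        exact one_ne_zero
      · rw [map_one, one_pow, mul_one, map_mul, aeval_X, aeval_blow hQ hx0]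
        change _ = z * _
        rw [← hl4z, hx, aeval_map75, hQq, ← hx, div_pow, mul_pow, hw3, hz3, map_mul, ← hx]
        field_simp
  · -- the lines meet at infinity
    right
    rw [← hl1] at hx1
    rw [← hl4] at hx4
    rw [← hq] at hQq
    obtain ⟨X', hX⟩ : ∃ X' : M, X' = algebraMap R M x := ⟨_, rfl⟩
    obtain ⟨Y', hY⟩ : ∃ Y' : M, Y' = algebraMap R M y := ⟨_, rfl⟩
    have mx : X' ∈ adjoin Ω {X', Y', z} := subset_adjoin _ _ (by simp)
    have my : Y' ∈ adjoin Ω {X', Y', z} := subset_adjoin _ _ (by simp)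
    have mz : z ∈ adjoin Ω {X', Y', z} := subset_adjoin _ _ (by simp)
    have hRm : ∀ a : R, algebraMap R M a ∈ adjoin Ω {X', Y', z} := by
      intro a
      have h3 : adjoin Ω {x, y} ≤ (adjoin Ω {X', Y', z}).comap (IsScalarTower.toAlgHom Ω R M) := by
        rw [adjoin_le_iff]
        have n1 : algebraMap R M x ∈ adjoin Ω {X', Y', z} := by
          rw [← hX]
          exact mx
        have n2 : algebraMap R M y ∈ adjoin Ω {X', Y', z} := by
          rw [← hY]
          exact my
        rintro s (rfl | rfl)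
        · exact n1
        · exact n2
      rw [hgen] at h3
      exact h3 (mem_top (x := a))
    have hw3m : w ^ 3 ∈ adjoin Ω {X', Y', z} := by
      rw [hw3]
      exact mul_mem mz (mul_mem (hRm _) (hRm _))
    obtain ⟨hf3, hgen3⟩ := third_field hw hfin {X', Y', z} hRm mz hz3 (by
      rintro s (rfl | rfl | rfl)
      · rw [hX]
        exact IntermediateField.algebraMap_mem _ _
      · rw [hY]
        exact IntermediateField.algebraMap_mem _ _
      · exact hzR) hw3m
    -- the elements of `Ω(x)`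
    have hAFx : ∀ {a : R}, a ∈ adjoin Ω {x} → algebraMap R M a ∈ adjoin Ω {X'} := by
      intro a ha
      have h3 : adjoin Ω {x} ≤ (adjoin Ω {X'}).comap (IsScalarTower.toAlgHom Ω R M) := by
        rw [adjoin_le_iff]
        have n1 : algebraMap R M x ∈ adjoin Ω {X'} := by
          rw [← hX]
          exact subset_adjoin _ _ rfl
        rintro s rfl
        exact n1
      exact h3 ha
    have hle : adjoin Ω {X'} ≤ AF Ω {X'} := adjoin_le_iff.2 (subset_AF _)
    have hzA : z ∈ AF Ω {X'} := by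
      refine AF_root (n := 3) (by norm_num) ?_
      rw [hz3, map_mul]
      exact mul_mem (hle (hAFx hx1)) (hle (hAFx hx4))
    have hcast : ((9 : ℕ) : Ω) ≠ 0 := by
      have hwn : w ^ 9 ∈ adjoin Ω {algebraMap R M x, algebraMap R M y} := by
        have m1 : adjoin Ω {X'} ≤ adjoin Ω {algebraMap R M x, algebraMap R M y} := by
          rw [adjoin_le_iff]
          rintro s rfl
          rw [hX]
          exact subset_adjoin _ _ (by simp)
        rw [hw9, ← hQq, ← aeval_map75]
        refine mul_mem (m1 (hAFx hx1)) (mul_mem (pow_mem (m1 (hAFx hx4)) _) (pow_mem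
          (mem_valr75 _ _ _ _ ?_ ?_) _))
        · exact subset_adjoin _ _ (by simp)
        · exact subset_adjoin _ _ (by simp)
      exact (cyc_data x y hgen w hw hfin hwn).2.2.2.1
    have h3 : ((3 : ℕ) : Ω) ≠ 0 := by
      intro h3
      apply hcast
      have h9 : ((9 : ℕ) : Ω) = ((3 : ℕ) : Ω) * ((3 : ℕ) : Ω) := by norm_num
      rw [h9, h3, zero_mul]
    refine ⟨3, 1, 1, X', Y', z, w, by norm_num, h3, by norm_num, by norm_num, by norm_num,
      by norm_num, ?_, hRm, ?_, hf3, hw0, hw3m, fun N _ _ g v s hv hs => ?_⟩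
    · exact mem_AF.1 (AF_mono (by simp) hzA)
    · refine hgen3 _ ?_ ?_
      · rintro s (rfl | rfl | rfl)
        · exact subset_adjoin _ _ (by simp)
        · exact subset_adjoin _ _ (by simp)
        · exact subset_adjoin _ _ (by simp)
      · exact subset_adjoin _ _ (by simp)
    · -- the conic bundle
      have hgA : ∀ a ∈ AF Ω {X'}, g a ∈ AF Ω {g X', s} := by
        intro a ha
        have h5 : AF Ω {X'} ≤ (AF Ω {g X', s}).comap g := by
          intro a ha
          obtain ⟨p, hp, hpe⟩ := mem_AF.1 ha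
          have h6 : adjoin Ω {X'} ≤ (AF Ω {g X', s}).comap g := by
            rw [adjoin_le_iff]
            rintro c rfl
            exact subset_AF _ (by simp)
          let j : adjoin Ω {X'} →+* AF Ω {g X', s} :=
            { toFun := fun b => ⟨g b, h6 b.2⟩
              map_one' := Subtype.ext (map_one g)
              map_mul' := fun b c => Subtype.ext (map_mul g _ _)
              map_zero' := Subtype.ext (map_zero g)
              map_add' := fun b c => Subtype.ext (map_add g _ _) }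
          change g a ∈ AF Ω {g X', s}
          apply AF_closed
          refine ⟨p.map j, ?_, ?_⟩
          · rw [Ne, Polynomial.map_eq_zero]
            exact hp
          · rw [Polynomial.aeval_def, Polynomial.eval₂_map]
            rw [Polynomial.aeval_def] at hpe
            have h7 := congrArg g hpe
            rw [map_zero] at h7
            have h8 := Polynomial.hom_eval₂ p (algebraMap (adjoin Ω {X'}) M) (g : M →+* N) a
            rw [← h7]
            exact h8.symm
        exact h5 ha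
      have ms : s ∈ AF Ω {g X', s} := subset_AF _ (by simp)
      have hgz := hgA z hzA
      have hgl := hgA _ (hle (hAFx hx4))
      refine uni_conic Q hQ (g X') (g Y') v s (s ^ 3 * (g z * g (algebraMap R M l4)))
        (mul_mem (pow_mem ms 3) (mul_mem hgz hgl)) ?_ _ ?_
      · rw [pow_one, pow_one] at hs
        rw [hs, ← map_pow g, hw3, ← hQq, ← aeval_map75, ← hX, ← hY, map_mul, map_mul, map_aeval75]
        ring
      · have hm : ∀ a ∈ AF Ω {g X', s}, a ∈ adjoin Ω (Acl Ω {g X', s} ∪ {g Y', v}) := fun a ha =>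
          subset_adjoin Ω _ (Or.inl (mem_AF.1 ha))
        rintro a (rfl | rfl | rfl | rfl | rfl)
        · exact hm _ (subset_AF _ (by simp))
        · exact subset_adjoin Ω _ (Or.inr (by simp))
        · exact hm _ hgz
        · exact subset_adjoin Ω _ (Or.inr (by simp))
        · exact hm _ ms

end Pool.Agent.Helper75.WC
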