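import Pool.Agent.Helper48.V7.All

/-! Project V7. The equation `w ^ n = f(x, y)` for all `n`, with the natural condition. -/

set_option autoImplicit false

namespace Pool.Agent.Helper73.V7

open IntermediateField MvPolynomial Pool.Agent.Helper75.QC Pool.Agent.Helper35.V7

/-- The equation `w ^ n = f(x, y)`, where the degree of `f` is at most `d` for some weights `a`, `b`
of `x`, `y`, and for all `k` prime to `n`, `k * d ≤ n * (a + b)` or `(n - k) * d ≤ n * (a + b)`. -/
def IsPower (Ω : Type) {M : Type} [Field Ω] [Field M] [Algebra Ω M] (n : ℕ) (x y w : M) : Prop :=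
  ∃ (a b d : ℕ) (f : MvPolynomial (Fin 2) Ω), 0 < a + b ∧
    (∀ k < n, k.Coprime n → k * d ≤ n * (a + b) ∨ (n - k) * d ≤ n * (a + b)) ∧
    Pool.Agent.Helper48.V7.DegreeLE a b 0 0 d f ∧ w ^ n = aeval ![x, y] f

theorem natural_le {n k d s : ℕ} (hk : 2 * k ≤ n) (h : k * d ≤ n * s ∨ (n - k) * d ≤ n * s) :
    k * d ≤ n * s := by
  rcases h with h | h
  · exact h
  · exact (Nat.mul_le_mul_right d (by omega)).trans h

theorem IsPower.weighted {Ω M : Type} [Field Ω] [Field M] [Algebra Ω M] {n : ℕ} {x y w : M}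
    (h : IsPower Ω n x y w) (hn : 1 < n) : Pool.Agent.Helper75.WC.IsWeighted Ω n x y w := by
  obtain ⟨a, b, d, f, hab, hd, hf, h⟩ := h
  -- the weights `l * a`, `l * b`, `c`
  have hf' : ∀ (l c j : ℕ), c * j + l * d ≤ 2 * (l * a + l * b + c) →
      Pool.Agent.Helper75.WC.DegLE (l * a) (l * b) c j (2 * (l * a + l * b + c)) f := by
    intro l c j hc m hm
    have h1 : a * m 0 + b * m 1 ≤ d := by simpa using hf m hm
    have h2 : l * (a * m 0 + b * m 1) ≤ l * d := Nat.mul_le_mul_left l h1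
    have h3 : l * a * m 0 + l * b * m 1 = l * (a * m 0 + b * m 1) := by ring
    omega
  have hg : ∀ (a b c i k : ℕ), c * i ≤ k → Pool.Agent.Helper75.WC.DegLE a b c i k
      (1 : MvPolynomial (Fin 2) Ω) := by
    classical
    intro a b c i k hc m hm
    rw [mem_support_iff, coeff_one] at hm
    have h1 : 0 = m := by
      by_contra h1
      rw [if_neg h1] at hm
      exact hm rfl
    subst h1
    simpa using hc
  have h1 : aeval ![x, y] (1 : MvPolynomial (Fin 2) Ω) ≠ 0 := by
    rw [map_one]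
    exact one_ne_zero
  obtain ⟨s, hs⟩ : ∃ s, s = a + b := ⟨_, rfl⟩
  rw [← hs] at hab hd
  have hsum : ∀ l : ℕ, l * a + l * b = l * s := fun l => by rw [hs, mul_add]
  rcases Nat.even_or_odd' n with ⟨m, rfl | rfl⟩
  · rcases Nat.even_or_odd' m with ⟨u, rfl | rfl⟩
    · -- `n = 4 * u`, `k = 2 * u - 1`
      have hu : 1 ≤ u := by omega
      obtain ⟨v, rfl⟩ : ∃ v, u = v + 1 := ⟨u - 1, by omega⟩
      have h2 : (2 * v + 1) * d ≤ 2 * (2 * (v + 1)) * s := by
        refine natural_le (by omega) (hd (2 * v + 1) (by omega) ?_)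
        have e1 : Nat.Coprime (2 * v + 1) (2 * (v + 1)) := by
          have e2 : 2 * (v + 1) = (2 * v + 1) + 1 := by ring
          rw [e2]
          exact Nat.coprime_self_add_right.2 (Nat.coprime_one_right _)
        have e3 : Nat.Coprime (2 * v + 1) 2 := by
          rw [Nat.coprime_two_right]
          exact ⟨v, rfl⟩
        exact Nat.Coprime.mul_right e3 e1
      refine ⟨(2 * v + 1) * a, (2 * v + 1) * b, 2 * s, 2 * (v + 1) + 1, 1, f, 1, ?_, ?_,
        hf' _ _ _ ?_, Or.inr ⟨⟨v + 1, rfl⟩, hg _ _ _ _ _ ?_, 2 * (v + 1), rfl,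
          Or.inr (by omega), ?_⟩⟩
      · rw [hsum]
        omega
      · left
        omega
      · rw [hsum]
        nlinarith [h2]
      · rw [hsum]
        nlinarith
      · rw [h, map_one, one_pow, mul_one]
    · -- `n = 4 * u + 2`
      rcases Nat.eq_zero_or_pos u with rfl | hu
      · have h2 : 1 * d ≤ 2 * (2 * 0 + 1) * s :=
          natural_le (by omega) (hd 1 (by omega) (Nat.coprime_one_left _))
        have h3 := hsum 1
        refine ⟨1 * a, 1 * b, 0, 1, 0, f, 1, by omega, Or.inr rfl, hf' 1 0 0 (by omega), Or.inr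
          ⟨by decide, hg _ _ _ _ _ (by omega), 1, rfl, Or.inr rfl, ?_⟩⟩
        rw [h, map_one, one_pow, mul_one]
      · obtain ⟨v, rfl⟩ : ∃ v, u = v + 1 := ⟨u - 1, by omega⟩
        have h2 : (2 * v + 1) * d ≤ 2 * (2 * (v + 1) + 1) * s := by
          refine natural_le (by omega) (hd (2 * v + 1) (by omega) ?_)
          have e3 : Nat.Coprime (2 * v + 1) 2 := by
            rw [Nat.coprime_two_right]
            exact ⟨v, rfl⟩
          have e1 : Nat.Coprime (2 * v + 1) (2 * (v + 1) + 1) := by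
            have e2 : 2 * (v + 1) + 1 = (2 * v + 1) + 2 := by ring
            rw [e2]
            exact Nat.coprime_self_add_right.2 e3
          exact Nat.Coprime.mul_right e3 e1
        refine ⟨(2 * v + 1) * a, (2 * v + 1) * b, 2 * s, 2 * (v + 1) + 1, 0, f, 1, ?_, ?_,
          hf' _ _ _ ?_, Or.inr ⟨⟨v + 1, rfl⟩, hg _ _ _ _ _ ?_, 2 * (v + 1) + 1, rfl,
            Or.inr (by omega), ?_⟩⟩
        · rw [hsum]
          omega
        · left
          omega
        · rw [hsum]
          nlinarith [h2]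
        · rw [hsum]
          nlinarith
        · rw [h, map_one, one_pow, mul_one]
  · -- `n = 2 * m + 1`, `k = m`
    have hm : 1 ≤ m := by omega
    have h2 : m * d ≤ (2 * m + 1) * s := by
      refine natural_le (by omega) (hd m (by omega) ?_)
      have e2 : 2 * m + 1 = 1 + 2 * m := by ring
      rw [e2, Nat.coprime_add_mul_right_right]
      exact Nat.coprime_one_right _
    refine ⟨m * a, m * b, s, m + 1, 1, f, 1, ?_, Or.inl (by omega), hf' _ _ _ ?_, Or.inl
      ⟨Or.inl (by omega), hg _ _ _ _ _ ?_, h1, ?_⟩⟩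
    · rw [hsum]
      omega
    · rw [hsum]
      nlinarith [h2]
    · rw [hsum]
      nlinarith
    · rw [h, map_one, one_pow, mul_one]

/-- **The equation `w ^ n = f(x, y)`.** -/
theorem IsPower.row {Ω R M : Type} [Field Ω] [IsAlgClosed Ω] [Field R] [Field M] [Algebra Ω R]
    [Algebra Ω M] [Algebra R M] [IsScalarTower Ω R M] [FiniteDimensional R M] [IsGalois R M]
    (x y w : M) (hR : ∀ r : R, algebraMap R M r ∈ (adjoin Ω {x, y} : IntermediateField Ω M))
    (hM : adjoin Ω {x, y, w} = ⊤)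
    (h : IsPower Ω (Module.finrank (adjoin Ω {x, y} : IntermediateField Ω M) M) x y w) :
    Uniruled Ω M 2 ∨ LstN Ω R M := by
  have hwn : w ^ Module.finrank (adjoin Ω {x, y} : IntermediateField Ω M) M ∈
      (adjoin Ω {x, y} : IntermediateField Ω M) := by
    obtain ⟨a, b, d, f, -, -, -, h⟩ := h
    rw [h]
    exact Pool.Agent.Helper75.WC.mem_valr75 f x y _ (subset_adjoin _ _ (by simp)) (subset_adjoin _ _ (by simp))
  obtain ⟨hn0, -, -⟩ := Pool.Agent.Helper15.WC.cyc_dataM (R := R) x y w hR hM rfl hwn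
  rcases Nat.lt_or_ge 1 (Module.finrank (adjoin Ω {x, y} : IntermediateField Ω M) M) with h1 | h1
  · exact Or.inr (Or.inl ⟨x, y, w, hR, hM, Or.inl (h.weighted h1)⟩)
  · left
    have hn1 : Module.finrank (adjoin Ω {x, y} : IntermediateField Ω M) M = 1 := by omega
    refine Pool.Agent.Helper35.TD.uniruled_surface (n := 1) x y w hM ?_
    rwa [hn1, pow_one] at hwn

/-- `M = Ω(x, y, w)`, `R ⊆ Ω(x, y)` and `w ^ n ∈ Ω(x, y)`, `n = [M : Ω(x, y)]`, is given by one of
the equations. -/
def IsListed (Ω R M : Type) [Field Ω] [Field R] [Field M] [Algebra Ω M] [Algebra R M] : Prop :=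
  ∃ x y w : M, (∀ r : R, algebraMap R M r ∈ adjoin Ω {x, y}) ∧ adjoin Ω {x, y, w} = ⊤ ∧
    (Pool.Agent.Helper48.V7.IsCurve Ω (Module.finrank (adjoin Ω {x, y}) M) x y w ∨
      IsPower Ω (Module.finrank (adjoin Ω {x, y}) M) x y w ∨
      Pool.Agent.Helper48.V7.IsTrinomial Ω (Module.finrank (adjoin Ω {x, y}) M) x y w)

/-- **The whole list.** -/
theorem IsListed.row {Ω R M : Type} [Field Ω] [IsAlgClosed Ω] [Field R] [Field M] [Algebra Ω R]
    [Algebra Ω M] [Algebra R M] [IsScalarTower Ω R M] [FiniteDimensional R M] [IsGalois R M]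
    (h : IsListed Ω R M) : Uniruled Ω M 2 ∨ LstN Ω R M := by
  obtain ⟨x, y, w, hR, hM, h | h | h⟩ := h
  · exact Pool.Agent.Helper48.V7.IsListed.row ⟨x, y, w, hR, hM, Or.inl h⟩
  · exact h.row x y w hR hM
  · exact Pool.Agent.Helper48.V7.IsListed.row ⟨x, y, w, hR, hM, Or.inr (Or.inr h)⟩

end Pool.Agent.Helper73.V7
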