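import Pool.Agent.Helper73.V7.Prim3
import Pool.Agent.Helper75.WC.CurveFin

/-! Project V7. Frobenius is semisimple on the eigenclasses for the faithful characters of the
cyclic extensions `M / R` in the list `LstN`. -/

set_option autoImplicit false

namespace Pool.Agent.Helper73.V7

open IntermediateField Pool.Agent.Helper75.QC Pool.Agent.Helper75.TC Pool.Agent.Helper75.WC
  Pool.Agent.Helper35.V7

variable {p : ℕ} [hpr : Fact p.Prime] {Ω L : Type} [Field Ω] [CharP Ω p] [IsAlgClosed Ω]
  [Field L] [CharZero L] [IsAlgClosed L]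

/-- **The list.** -/
theorem prim_lstM (hΩ : ∀ c : Ω, ∃ k : ℕ, 0 < k ∧ c ^ p ^ k = c) (T : Theory p Ω L)
    {R M : Type} [Field R] [Field M] [Algebra Ω R]
    [Algebra Ω M] [Algebra R M] [IsScalarTower Ω R M] [FiniteDimensional R M] [IsGalois R M]
    (h : LstM Ω R M) : PrimGood T R M := by
  obtain ⟨x, y, w, hxy, htop, h | h⟩ := h
  · exact prim_weightedM T x y w hxy htop h
  · obtain ⟨hn0, -, -⟩ := Pool.Agent.Helper15.WC.cyc_dataM (R := R) x y w hxy htop rfl (tab_mem h)
    obtain ⟨a, b, c, f, g, k, H, hwn⟩ := h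
    have h1 : Pool.Agent.Helper35.TD.IsTableCover Ω M := by
      refine ⟨Module.finrank (adjoin Ω {x, y}) M, f, g, k, a, b, c, x, y, w, hn0, ?_, htop, rfl,
        hwn⟩
      rcases H with H | H
      · exact Or.inr (Or.inl H)
      · exact Or.inr (Or.inr (Or.inl H))
    exact Good.prim (Pool.Agent.Helper35.TD.IsTableCover.fg h1) (good_table hΩ T h1)

/-- **The list, and the criterion over `Ω(x, y, z)`.** -/
theorem prim_lstN (hΩ : ∀ c : Ω, ∃ k : ℕ, 0 < k ∧ c ^ p ^ k = c) (T : Theory p Ω L)
    {R M : Type} [Field R] [Field M] [Algebra Ω R]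
    [Algebra Ω M] [Algebra R M] [IsScalarTower Ω R M] [FiniteDimensional R M] [IsGalois R M]
    (h : LstN Ω R M) : PrimGood T R M := by
  rcases h with h | h
  · exact prim_lstM hΩ T h
  · exact prim_row3 T h

end Pool.Agent.Helper73.V7
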