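import Pool.Agent.Helper35.V7.Row3
import Pool.Agent.Helper75.WC.GoodRowM

/-! Project V7. Frobenius is semisimple on the eigenclasses for the faithful characters of the
cyclic extensions `M / R` with a uniruled twist over a field `Ω(x, y, z)`. -/

set_option autoImplicit false

namespace Pool.Agent.Helper73.V7

open IntermediateField Pool.Agent.Helper75.QC Pool.Agent.Helper75.TC Pool.Agent.Helper75.WC
  Pool.Agent.Helper35.V7

private theorem alg_of_pow73 {Ω K : Type} [Field Ω] [Field K] [Algebra Ω K]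
    (R : IntermediateField Ω K) (S : Set K) (hS : adjoin Ω S = ⊤) (m : ℕ) (hm : 0 < m)
    (h : ∀ s ∈ S, s ^ m ∈ R) (k : K) : IsAlgebraic R k := by
  have h1 : adjoin Ω S ≤ (algebraicClosure R K).restrictScalars Ω := by
    rw [adjoin_le_iff]
    intro s hs
    have h2 : IsAlgebraic R s := by
      refine IsAlgebraic.of_pow hm ?_
      exact isAlgebraic_algebraMap (⟨s ^ m, h s hs⟩ : R)
    exact (mem_algebraicClosure_iff).2 h2
  have h3 : k ∈ (algebraicClosure R K).restrictScalars Ω := by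
    apply h1
    rw [hS]
    exact mem_top
  exact (mem_algebraicClosure_iff).1 h3

/-- **One eigenvalue**, over the field `Ω(x, y, z)`. -/
theorem tame_eigen3 {p : ℕ} [Fact p.Prime] {Ω L : Type} [Field Ω] [CharP Ω p] [IsAlgClosed Ω]
    [Field L] [CharZero L] [IsAlgClosed L] (T : Theory p Ω L) {n α β e : ℕ} (hn : 0 < n)
    (hn' : (n : Ω) ≠ 0) (hαβ : (α.gcd β).Coprime n) {K : Type} [Field K] [Algebra Ω K]
    (x y z w : K) (hzz : z ∈ Acl Ω {x, y})
    (hK : adjoin Ω {x, y, z, w} = ⊤) (hw0 : w ≠ 0) (hw : w ^ n ∈ adjoin Ω {x, y, z})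
    (huni : ∀ (N : Type) [Field N] [Algebra Ω N] (g : K →ₐ[Ω] N) (v s : N),
      Transcendental g.fieldRange v → v ^ α * (1 - v) ^ β = s ^ n * g w ^ n →
      Uniruled Ω (adjoin Ω {g x, g y, g z, v, s} : IntermediateField Ω N) 3)
    {ζ : Ω} (hζ : IsPrimitiveRoot ζ n) (hζp : ζ ^ p ^ e = ζ) (σ : K →ₐ[Ω] K)
    (hσ : (∀ k ∈ adjoin Ω {x, y, z}, σ k = k) ∧ σ w = algebraMap Ω K ζ * w)
    (φ : K →ₐ[Ω] K)
    (hφ : φ x = x ^ p ^ e ∧ φ y = y ^ p ^ e ∧ φ z = z ^ p ^ e ∧ φ w = w ^ p ^ e)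
    {ξ : L} (hξn : ξ ^ n = 1) (hξα : ξ ^ α ≠ 1) (hξβ : ξ ^ β ≠ 1) (hξαβ : ξ ^ (α + β) ≠ 1)
    (U : Submodule L (T.H 2 K)) (hU : ∀ t ∈ U, T.map 2 σ t = ξ • t)
    (hP : ∀ t ∈ U, T.map 2 φ t ∈ U) :
    Module.End.IsSemisimple ((T.map 2 φ : Module.End L (T.H 2 K)).restrict hP) := by
  classical
  have hfin : (⊤ : IntermediateField Ω K).FG := by
    rw [← hK]
    exact fg_adjoin_of_finite (Set.toFinite _)
  have : FiniteDimensional L (T.H 2 K) := T.fin 2 K hfin
  have hpe : 0 < p ^ e := pow_pos (Fact.out : p.Prime).pos _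
  have hξ0 : ξ ≠ 0 := by
    rintro rfl
    rw [zero_pow hn.ne'] at hξn
    exact zero_ne_one hξn
  have hK' : adjoin Ω ((adjoin Ω {x, y, z} : Set K) ∪ {w}) = ⊤ := by rw [← gen3 x y z w, hK]
  obtain ⟨C, N, iC, jC, iN, jN, v, u, a, b, hv, hu, hC, hbv, hN, hsig, hpsi, -⟩ :=
    Pool.Agent.Helper35.TD.exists_curve_ab (Ω := Ω) hn hαβ K
  obtain ⟨σ', hσ'⟩ := hsig ζ hζ.pow_eq_one
  obtain ⟨ψ, hψ⟩ := hpsi p Fact.out inferInstance e
  have hfinC : (⊤ : IntermediateField Ω C).FG := by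
    rw [← hC]
    exact fg_adjoin_of_finite (Set.toFinite _)
  have : FiniteDimensional L (T.H 1 C) := T.fin 1 C hfinC
  obtain ⟨z0, hz0, hz0'⟩ := T.curve C n α β ζ v u σ' hn' hζ hv hu hC hσ'.1 hσ'.2 ξ⁻¹
    (by rw [inv_pow, hξn, inv_one]) (by
      intro h
      rw [inv_pow, inv_eq_one] at h
      exact hξα h) (by
      intro h
      rw [inv_pow, inv_eq_one] at h
      exact hξβ h) (by
      intro h
      rw [inv_pow, inv_eq_one] at h
      exact hξαβ h)
  have hcommC : σ'.comp ψ = ψ.comp σ' := by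
    refine hom_ext {v, u} hC _ _ ?_
    rintro s (rfl | rfl)
    · rw [AlgHom.comp_apply, AlgHom.comp_apply, hψ.1, map_pow, hσ'.1, hψ.1]
    · rw [AlgHom.comp_apply, AlgHom.comp_apply, hψ.2, map_pow, hσ'.2, map_mul, hψ.2,
        AlgHom.commutes, mul_pow, ← map_pow, hζp]
  have hcC : Commute (T.map 1 σ' : Module.End L (T.H 1 C)) (T.map 1 ψ) := by
    show (T.map 1 σ' : Module.End L (T.H 1 C)) * T.map 1 ψ = T.map 1 ψ * T.map 1 σ'
    have h1 := T.map_comp 1 ψ σ'
    have h2 := T.map_comp 1 σ' ψ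
    rw [hcommC, h2] at h1
    exact h1.symm
  obtain ⟨z', l, hz, hσz, hψz⟩ := common_eigen (T.map 1 σ' : Module.End L (T.H 1 C)) (T.map 1 ψ)
    hcC ξ⁻¹ z0 hz0 hz0'
  have hinjC : Function.Injective (T.map 1 ψ) := by
    refine T.inj 1 ψ fun a => alg_of_pow73 ψ.fieldRange {v, u} hC (p ^ e) hpe ?_ a
    rintro s (rfl | rfl)
    · exact ⟨s, hψ.1⟩
    · exact ⟨s, hψ.2⟩
  have hl : l ≠ 0 := by
    rintro rfl
    rw [zero_smul] at hψz
    exact hz (hinjC (by rw [hψz, map_zero]))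
  have huni' : ∀ z : T.H 3 (adjoin Ω (a '' (adjoin Ω {x, y, z} : Set K) ∪ {b v, b u / a w}) :
      IntermediateField Ω N), z = 0 := by
    apply T.uniruled
    rw [img3]
    refine huni N a (b v) (b u / a w) hbv ?_
    have h2 : b u ^ n = b v ^ α * (1 - b v) ^ β := by
      rw [← map_pow, hu, map_mul, map_pow, map_pow, map_sub, map_one]
    have h3 : a w ≠ 0 := fun h => hw0 (a.injective (h.trans (map_zero a).symm))
    rw [div_pow, h2, div_mul_cancel₀ _ (pow_ne_zero _ h3)]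
  have hPP : ∀ t ∈ U.map ((TensorProduct.mk L (T.H 2 K) (T.H 1 C)).flip z'),
      TensorProduct.map (T.map 2 φ) (T.map 1 ψ) t ∈
        U.map ((TensorProduct.mk L (T.H 2 K) (T.H 1 C)).flip z') := by
    rintro _ ⟨s, hs, rfl⟩
    refine ⟨l • T.map 2 φ s, Submodule.smul_mem _ _ (hP s hs), ?_⟩
    simp only [LinearMap.flip_apply, TensorProduct.mk_apply, TensorProduct.map_tmul]
    rw [hψz, TensorProduct.tmul_smul, TensorProduct.smul_tmul']
  refine semisimple_of_tensor (T.map 2 φ) (T.map 1 ψ) z' hz l hl hψz U hP hPP ?_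
  refine T.coniveau (Fact.out : p.Prime).ne_zero a b x y v e φ ψ hfin hfinC ?_ ?_ hbv ?_ ?_ _ ?_ hPP
  · exact alg3 hn hzz hK hw
  · intro s
    rw [← mem_AF]
    have h1 : adjoin Ω {v, u} ≤ AF Ω {v} := by
      rw [adjoin_le_iff]
      have hvm : v ∈ AF Ω {v} := subset_AF _ (by simp)
      rintro s (rfl | rfl)
      · exact hvm
      · apply AF_root hn
        rw [hu]
        exact mul_mem (pow_mem hvm _) (pow_mem (sub_mem (one_mem _) hvm) _)
    apply h1
    rw [hC]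
    exact mem_top
  · unfold IsFrob
    rw [eq_top_iff, ← hK, adjoin_le_iff]
    rintro s (rfl | rfl | rfl | rfl)
    · exact subset_adjoin _ _ hφ.1
    · exact subset_adjoin _ _ hφ.2.1
    · exact subset_adjoin _ _ hφ.2.2.1
    · exact subset_adjoin _ _ hφ.2.2.2
  · unfold IsFrob
    rw [eq_top_iff, ← hC, adjoin_le_iff]
    rintro s (rfl | rfl)
    · exact subset_adjoin _ _ hψ.1
    · exact subset_adjoin _ _ hψ.2
  · rintro _ ⟨s, hs, rfl⟩
    simp only [LinearMap.flip_apply, TensorProduct.mk_apply, TensorProduct.lift.tmul,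
      LinearMap.compl₁₂_apply]
    exact Pool.Agent.Helper15.QM.Gen.cross_zero T.toBaseTheory hn hn' hζ a b
      (adjoin Ω {x, y, z}) w v u hK' hC hN hw0 hw σ hσ σ' hσ' huni' ξ hξ0 s (hU s hs) z' hσz

variable {p : ℕ} [hpr : Fact p.Prime] {Ω L : Type} [Field Ω] [CharP Ω p] [IsAlgClosed Ω]
  [Field L] [CharZero L] [IsAlgClosed L]

/-- **The criterion over `Ω(x, y, z)`.** -/
theorem prim_row3 (T : Theory p Ω L) {R M : Type} [Field R] [Field M] [Algebra Ω R]
    [Algebra Ω M] [Algebra R M] [IsScalarTower Ω R M] [FiniteDimensional R M] [IsGalois R M]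
    (h : Row3 Ω R M) : PrimGood T R M := by
  classical
  obtain ⟨n, α, β, X, Y, Z, w, hn0, hcast, hαβ, hα, hβ, hαβ', hZ, hR, htop, hfin, hw0, hwn, huni⟩ :=
    h
  have : NeZero (n : Ω) := ⟨hcast⟩
  obtain ⟨ζ, hζ⟩ : ∃ ζ : Ω, IsPrimitiveRoot ζ n :=
    HasEnoughRootsOfUnity.exists_primitiveRoot Ω n
  have hK' : adjoin Ω ((adjoin Ω {X, Y, Z} : Set M) ∪ {w}) = ⊤ := by rw [← gen3 X Y Z w, htop]
  obtain ⟨σ, hσ⟩ := Pool.Agent.Helper15.QM.Gen.kummer_sigma hn0 hcast hζ.pow_eq_one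
    (adjoin Ω {X, Y, Z}) w hK' hwn hfin
  -- the generator of the Galois group
  have hσR : ∀ r : R, σ (algebraMap R M r) = algebraMap R M r := fun r => hσ.1 _ (hR r)
  let g0 : M →ₐ[R] M := { σ.toRingHom with commutes' := hσR }
  let g : M ≃ₐ[R] M := AlgEquiv.ofBijective g0 (Algebra.IsAlgebraic.algHom_bijective g0)
  have hgσ : autHom Ω g = σ := AlgHom.ext fun a => rfl
  have hgw : g w = algebraMap Ω M ζ * w := hσ.2
  have hgpow : ∀ k : ℕ, (g ^ k) w = algebraMap Ω M (ζ ^ k) * w := by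
    intro k
    induction k with
    | zero => simp
    | succ k ih =>
      rw [pow_succ', AlgEquiv.mul_apply, ih, map_mul, hgw]
      have h1 : g (algebraMap Ω M (ζ ^ k)) = algebraMap Ω M (ζ ^ k) := by
        rw [IsScalarTower.algebraMap_apply Ω R M]
        exact g.commutes _
      rw [h1, pow_succ, map_mul]
      ring
  have hord : ∀ k : ℕ, g ^ k = 1 → n ∣ k := by
    intro k hk
    apply hζ.dvd_of_pow_eq_one
    have h1 := hgpow k
    rw [hk, AlgEquiv.one_apply] at h1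
    have h2 : (algebraMap Ω M (ζ ^ k) - 1) * w = 0 := by
      rw [sub_mul, ← h1, one_mul, sub_self]
    have h3 := sub_eq_zero.1 ((mul_eq_zero.1 h2).resolve_right hw0)
    exact (algebraMap Ω M).injective (h3.trans (map_one _).symm)
  have hgn : g ^ n = 1 := by
    have hfix : ∀ a ∈ adjoin Ω {X, Y, Z}, ∀ k : ℕ, (g ^ k) a = a := by
      intro a ha k
      induction k with
      | zero => rfl
      | succ k ih =>
        rw [pow_succ', AlgEquiv.mul_apply, ih]
        exact hσ.1 a ha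
    have h1 : autHom Ω (g ^ n) = AlgHom.id Ω M := by
      refine hom_ext ((adjoin Ω {X, Y, Z} : Set M) ∪ {w}) hK' _ _ fun b hb => ?_
      show (g ^ n) b = b
      rcases hb with hb | hb
      · exact hfix b hb n
      · rw [Set.mem_singleton_iff] at hb
        rw [hb, hgpow, hζ.pow_eq_one, map_one, one_mul]
    exact AlgEquiv.ext fun a => DFunLike.congr_fun h1 a
  refine ⟨{X, Y, Z, w, algebraMap Ω M ζ}, Set.toFinite _, fun e φ he hφ χ U hU hP => ?_⟩
  by_cases hU0 : ∀ s ∈ U, s = 0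
  · have h1 : (T.map 2 φ : Module.End L (T.H 2 M)).restrict hP = 0 := by
      ext v
      rw [hU0 _ (((T.map 2 φ : Module.End L (T.H 2 M)).restrict hP) v).2]
      rfl
    rw [h1]
    exact Module.End.isSemisimple_zero
  push Not at hU0
  obtain ⟨s0, hs0, hs0'⟩ := hU0
  have hχ : Function.Injective χ := (hU s0 hs0).1
  have hξ : ∀ k : ℕ, (χ g : L) ^ k = 1 → n ∣ k := by
    intro k hk
    apply hord
    apply hχ
    rw [map_pow, map_one]
    exact Units.ext (by rw [Units.val_pow_eq_pow_val, hk, Units.val_one])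
  have hζp : ζ ^ p ^ e = ζ := by
    have h1 := hφ (algebraMap Ω M ζ) (by simp)
    rw [AlgHom.commutes, ← map_pow] at h1
    exact ((algebraMap Ω M).injective h1).symm
  refine tame_eigen3 T hn0 hcast hαβ X Y Z w hZ htop hw0 hwn huni hζ hζp σ
    hσ φ ⟨hφ X (by simp), hφ Y (by simp), hφ Z (by simp), hφ w (by simp)⟩ (ξ := (χ g : L)) ?_
    (fun h => hα (hξ _ h)) (fun h => hβ (hξ _ h)) (fun h => hαβ' (hξ _ h)) U (fun t ht => ?_) hP
  · rw [← Units.val_pow_eq_pow_val, ← map_pow, hgn, map_one, Units.val_one]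
  · have h1 := (hU t ht).2 g
    rw [hgσ] at h1
    exact h1

end Pool.Agent.Helper73.V7
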