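import Pool.Agent.Helper73.V7.Twist

/-! Project V7. The fields `Ω(x, y, w)`, `F(x, y, w ^ n) = 0`, where the degree of `F` for the weights
`a`, `b`, `2 * c` of `x`, `y`, `w ^ n` is at most `a + b + c`. -/

set_option autoImplicit false

namespace Pool.Agent.Helper73.V7

open IntermediateField MvPolynomial Pool.Agent.Helper75.QC Pool.Agent.Helper35.V7
  Pool.Agent.Helper9.TR Pool.Agent.Helper40.SD Pool.Agent.Helper15.QM

section Deg

variable {Ω : Type} [Field Ω] {ι : Type} [Fintype ι] {w : ι → ℕ}

theorem wle_zero (D : ℕ) : WLE w D (0 : MvPolynomial ι Ω) := by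
  intro m hm
  simp at hm

theorem wle_mono {D D' : ℕ} (h : D ≤ D') {F : MvPolynomial ι Ω} (hF : WLE w D F) : WLE w D' F :=
  fun m hm => (hF m hm).trans h

theorem wle_C (a : Ω) : WLE w 0 (C a : MvPolynomial ι Ω) := by
  classical
  intro m hm
  rw [mem_support_iff, coeff_C] at hm
  have h1 : 0 = m := by
    by_contra h1
    rw [if_neg h1] at hm
    exact hm rfl
  subst h1
  simp

theorem wle_X (i : ι) : WLE w (w i) (X i : MvPolynomial ι Ω) := by
  classical
  intro m hm
  rw [mem_support_iff, coeff_X] at hm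
  have h1 : Finsupp.single i 1 = m := by
    by_contra h1
    rw [if_neg h1] at hm
    exact hm rfl
  subst h1
  rw [Finset.sum_eq_single i]
  · simp
  · intro j _ hj
    rw [Finsupp.single_eq_of_ne hj, mul_zero]
  · intro h
    exact absurd (Finset.mem_univ i) h

theorem wle_mul {D E : ℕ} {F G : MvPolynomial ι Ω} (hF : WLE w D F) (hG : WLE w E G) :
    WLE w (D + E) (F * G) := by
  classical
  intro m hm
  obtain ⟨m1, h1, m2, h2, rfl⟩ := Finset.mem_add.1 (support_mul _ _ hm)
  have h3 := hF m1 h1
  have h4 := hG m2 h2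
  have h5 : ∑ i, w i * (m1 + m2) i = ∑ i, w i * m1 i + ∑ i, w i * m2 i := by
    rw [← Finset.sum_add_distrib]
    exact Finset.sum_congr rfl fun i _ => by rw [Finsupp.add_apply, mul_add]
  rw [h5]
  exact add_le_add h3 h4

theorem wle_pow {D : ℕ} {F : MvPolynomial ι Ω} (hF : WLE w D F) (k : ℕ) :
    WLE w (k * D) (F ^ k) := by
  induction k with
  | zero =>
    rw [pow_zero, zero_mul, ← C_1]
    exact wle_C _
  | succ k ih =>
    rw [pow_succ, add_mul, one_mul]
    exact wle_mul ih hF

theorem wle_sum {α : Type} {D : ℕ} (s : Finset α) (F : α → MvPolynomial ι Ω)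
    (h : ∀ a ∈ s, WLE w D (F a)) : WLE w D (∑ a ∈ s, F a) := by
  classical
  induction s using Finset.induction_on with
  | empty =>
    rw [Finset.sum_empty]
    exact wle_zero D
  | insert a s ha ih =>
    rw [Finset.sum_insert ha]
    exact (h a (Finset.mem_insert_self _ _)).add (ih fun b hb => h b (Finset.mem_insert_of_mem hb))

/-- substitution -/
theorem wle_bind {κ : Type} [Fintype κ] {u : κ → ℕ} {D : ℕ} {F : MvPolynomial κ Ω}
    (hF : WLE u D F) (g : κ → MvPolynomial ι Ω) (hg : ∀ k, WLE w (u k) (g k)) :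
    WLE w D (bind₁ g F) := by
  classical
  have h1 : bind₁ g F = ∑ m ∈ F.support, C (coeff m F) * ∏ k, g k ^ m k := by
    conv_lhs => rw [F.as_sum]
    rw [map_sum]
    refine Finset.sum_congr rfl fun m _ => ?_
    rw [bind₁_monomial, Finset.prod_subset (Finset.subset_univ m.support)]
    intro k _ hk
    rw [Finsupp.notMem_support_iff.1 hk, pow_zero]
  rw [h1]
  refine wle_sum _ _ fun m hm => ?_
  have h2 : ∀ s : Finset κ, WLE w (∑ k ∈ s, u k * m k) (∏ k ∈ s, g k ^ m k) := by
    intro s
    induction s using Finset.induction_on with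
    | empty =>
      rw [Finset.prod_empty, Finset.sum_empty, ← C_1]
      exact wle_C _
    | insert k s hk ih =>
      rw [Finset.prod_insert hk, Finset.sum_insert hk]
      refine wle_mul ?_ ih
      rw [mul_comm]
      exact wle_pow (hg k) (m k)
  refine wle_mono ?_ (wle_mul (wle_C _) (h2 Finset.univ))
  rw [zero_add]
  exact hF m hm

end Deg

variable {Ω N : Type} [Field Ω] [Field N] [Algebra Ω N]

/-- an algebraic relation between three elements: one of them is algebraic over the others -/
theorem acl_of_rel (F : MvPolynomial (Fin 3) Ω) (hF : F ≠ 0) (x : Fin 3 → N)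
    (h0 : aeval x F = 0) : ∃ e : Fin 3 ≃ Fin 3, x (e 2) ∈ Acl Ω {x (e 0), x (e 1)} := by
  classical
  have h1 : ¬ AlgebraicIndependent Ω x := fun h => hF (h (h0.trans (map_zero _).symm))
  obtain ⟨i, t, hit, hi⟩ : ∃ (i : Fin 3) (t : Set (Fin 3)), i ∉ t ∧
      IsAlgebraic (Algebra.adjoin Ω (x '' t)) (x i) := by
    by_contra hcon
    apply h1
    refine algebraicIndependent_of_finite_type' (algebraMap Ω N).injective fun t _ _ i hi h => ?_
    exact hcon ⟨i, t, hi, h⟩
  have h2 : x i ∈ Acl Ω (x '' t) := isAlgebraic_adjoin_iff.2 hi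
  have h3 : ∀ S : Set N, x '' t ⊆ S → x i ∈ Acl Ω S := by
    intro S hS
    rw [← coe_AF] at h2 ⊢
    have h4 : AF Ω (x '' t) ≤ AF Ω S := AF_mono hS
    exact h4 h2
  have hsub : ∀ j k : Fin 3, (∀ l, l = i ∨ l = j ∨ l = k) → x '' t ⊆ {x j, x k} := by
    rintro j k h _ ⟨l, hl, rfl⟩
    rcases h l with rfl | rfl | rfl
    · exact absurd hl hit
    · exact Or.inl rfl
    · exact Or.inr rfl
  refine ⟨Equiv.swap i 2, ?_⟩
  rw [Equiv.swap_apply_right]
  apply h3
  apply hsub
  fin_cases i
  · decide
  · decide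
  · decide

/-- The threefold `F(x, y, t) = 0`, `v * (1 - v) = σ ^ n * t`. -/
theorem uni_pull [IsAlgClosed Ω] {a b c n : ℕ} (hpos : 0 < a + b + c)
    (F : MvPolynomial (Fin 3) Ω) (hF : F ≠ 0) (hd : WLE ![a, b, 2 * c] (a + b + c) F)
    (x y t v σ : N) (hσ : σ ≠ 0) (h0 : aeval ![x, y, t] F = 0) (heq : v * (1 - v) = σ ^ n * t) :
    Uniruled Ω (adjoin Ω {x, y, t, v, σ} : IntermediateField Ω N) 3 := by
  classical
  set E := AlgebraicClosure N
  let ι : N →ₐ[Ω] E := IsScalarTower.toAlgHom Ω N E
  set M : IntermediateField Ω E := AF Ω {ι σ} with hM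
  have hσM : ι σ ∈ M := subset_AF _ (by simp)
  have hισ : ι σ ≠ 0 := (map_ne_zero ι).2 hσ
  set κ : M := (⟨ι σ, hσM⟩ ^ n)⁻¹ with hκ
  have hκι : (κ : E) = (ι σ ^ n)⁻¹ := by
    rw [hκ]
    push_cast
    rfl
  have hκ0 : κ ≠ 0 := by
    rw [hκ]
    refine inv_ne_zero (pow_ne_zero _ fun h => hισ ?_)
    exact congrArg Subtype.val h
  set g : Fin 3 → MvPolynomial (Fin 3) M := ![X 0, X 1, C κ * (X 2 * (1 + -X 2))] with hg
  set F' : MvPolynomial (Fin 3) M := bind₁ g (map (algebraMap Ω M) F) with hF'
  have hte : ι t = (κ : E) * (ι v * (1 + -ι v)) := by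
    have h1 := congrArg ι heq
    rw [map_mul, map_mul, map_pow, map_sub, map_one] at h1
    rw [hκι, ← sub_eq_add_neg, h1, ← mul_assoc, inv_mul_cancel₀ (pow_ne_zero n hισ), one_mul]
  have hU : Uniruled M (adjoin M (Set.range ![ι x, ι y, ι v]) : IntermediateField M E) 2 := by
    refine uni_surface ![a, b, c] (by rw [sum_three]; exact hpos) F' ?_ ?_ _ ?_
    · intro h
      apply hF
      have h1 : map (algebraMap Ω M) F = 0 := by
        refine MvPolynomial.funext fun p => ?_
        obtain ⟨r, hr⟩ : ∃ r : M, κ * (r * (1 + -r)) = p 2 := by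
          obtain ⟨r, hr⟩ := IsAlgClosed.exists_root
            (Polynomial.X ^ 2 - Polynomial.X + Polynomial.C (κ⁻¹ * p 2) : Polynomial M) (by
              have : (Polynomial.X ^ 2 - Polynomial.X + Polynomial.C (κ⁻¹ * p 2) :
                Polynomial M).degree = 2 := by compute_degree!
              rw [this]
              decide)
          refine ⟨r, ?_⟩
          simp only [Polynomial.IsRoot.def, Polynomial.eval_add, Polynomial.eval_sub,
            Polynomial.eval_pow, Polynomial.eval_X, Polynomial.eval_C] at hr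
          have h2 : r * (1 + -r) = κ⁻¹ * p 2 := by linear_combination -hr
          rw [h2, ← mul_assoc, mul_inv_cancel₀ hκ0, one_mul]
        have h2 := congrArg (eval ![p 0, p 1, r]) h
        rw [map_zero, hF', eval, eval₂Hom_bind₁] at h2
        rw [map_zero, ← h2]
        show eval₂Hom (RingHom.id M) p _ = _
        congr 2
        funext i
        fin_cases i
        · simp [hg]
        · simp [hg]
        · simp [hg, hr]
      exact map_injective _ (algebraMap Ω M).injective (h1.trans (map_zero _).symm)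
    · rw [sum_three]
      refine wle_bind (u := ![a, b, 2 * c]) (fun m hm => hd m (support_map_subset _ _ hm)) g ?_
      intro k
      fin_cases k
      · exact wle_X 0
      · exact wle_X 1
      · have e0 : WLE ![a, b, c] c (X 2 : MvPolynomial (Fin 3) M) := wle_X 2
        have e1 : WLE ![a, b, c] c (1 + -X 2 : MvPolynomial (Fin 3) M) := by
          refine WLE.add ?_ e0.neg
          rw [← C_1]
          exact wle_mono (Nat.zero_le c) (wle_C _)
        have e2 := wle_mul (wle_C (w := ![a, b, c]) κ) (wle_mul e0 e1)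
        refine wle_mono ?_ e2
        show 0 + (c + c) ≤ 2 * c
        omega
    · rw [hF', aeval_bind₁]
      have h1 : (fun i => aeval ![ι x, ι y, ι v] (g i)) = ι ∘ ![x, y, t] := by
        funext i
        fin_cases i
        · simp [hg]
        · simp [hg]
        · simp only [hg]
          show aeval ![ι x, ι y, ι v] (C κ * (X 2 * (1 + -X 2))) = ι t
          rw [hte, map_mul, map_mul, map_add, map_neg, map_one, aeval_C, aeval_X]
          rfl
      rw [h1, aeval_map_algebraMap]
      have h2 : aeval (ι ∘ ![x, y, t]) F = ι (aeval ![x, y, t] F) := by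
        rw [← AlgHom.comp_apply, comp_aeval]
        rfl
      rw [h2, h0, map_zero]
  have hU' : Uniruled M (adjoin M (ι '' {x, y, t, v}) : IntermediateField M E) 2 := by
    refine uniruled_adjoin (AlgHom.id M E) _ _ ?_ hU
    rw [range_three]
    have mx : ι x ∈ adjoin M {ι x, ι y, ι v} := subset_adjoin _ _ (by simp)
    have my : ι y ∈ adjoin M {ι x, ι y, ι v} := subset_adjoin _ _ (by simp)
    have mv : ι v ∈ adjoin M {ι x, ι y, ι v} := subset_adjoin _ _ (by simp)
    rintro _ ⟨d, (rfl | rfl | rfl | rfl), rfl⟩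
    · exact mx
    · exact my
    · change ι d ∈ _
      rw [hte]
      exact mul_mem ((adjoin M {ι x, ι y, ι v}).algebraMap_mem κ)
        (mul_mem mv (add_mem (one_mem _) (neg_mem mv)))
    · exact mv
  have h3 := uni_family ι σ {x, y, t, v} hU'
  refine uniruled_adjoin (AlgHom.id Ω N) _ _ ?_ h3
  rintro d (rfl | rfl | rfl | rfl | rfl)
  · exact subset_adjoin _ _ (by simp)
  · exact subset_adjoin _ _ (by simp)
  · exact subset_adjoin _ _ (by simp)
  · exact subset_adjoin _ _ (by simp)
  · exact subset_adjoin _ _ (by simp)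

/-- The surface `F(x, y, w ^ n) = 0`, `n ≤ 2`. -/
theorem uni_low [IsAlgClosed Ω] {a b c n : ℕ} (hn0 : 0 < n) (hn : n ≤ 2)
    (F : MvPolynomial (Fin 3) Ω) (hF : F ≠ 0) (hd : WLE ![a, b, 2 * c] (a + b + c) F)
    (hpos : 0 < a + b + c) (x y w : N) (h0 : aeval ![x, y, w ^ n] F = 0) :
    Uniruled Ω (adjoin Ω {x, y, w} : IntermediateField Ω N) 2 := by
  classical
  set g : Fin 3 → MvPolynomial (Fin 3) Ω := ![X 0, X 1, X 2 ^ n] with hg
  -- the weight of `w`
  obtain ⟨d, hd1, hd2⟩ : ∃ d, c ≤ d ∧ n * d ≤ 2 * c := by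
    interval_cases n
    · exact ⟨2 * c, by omega, by omega⟩
    · exact ⟨c, by omega, by omega⟩
  rw [← range_three]
  refine uni_surface ![a, b, d] (by rw [sum_three]; omega) (bind₁ g F) ?_ ?_ _ ?_
  · intro h
    apply hF
    refine MvPolynomial.funext fun p => ?_
    obtain ⟨r, hr⟩ := IsAlgClosed.exists_pow_nat_eq (p 2) hn0
    have h2 := congrArg (eval ![p 0, p 1, r]) h
    rw [map_zero, eval, eval₂Hom_bind₁] at h2
    rw [map_zero, ← h2]
    show eval₂Hom (RingHom.id Ω) p _ = _
    congr 2
    funext i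
    fin_cases i
    · simp [hg]
    · simp [hg]
    · simp [hg, hr]
  · rw [sum_three]
    have h1 : WLE ![a, b, d] (a + b + c) (bind₁ g F) := by
      refine wle_bind (u := ![a, b, 2 * c]) hd g ?_
      intro k
      fin_cases k
      · exact wle_X 0
      · exact wle_X 1
      · exact wle_mono hd2 (wle_pow (wle_X (w := ![a, b, d]) (2 : Fin 3)) n)
    exact wle_mono (by omega) h1
  · rw [aeval_bind₁]
    have h1 : (fun i => aeval ![x, y, w] (g i)) = ![x, y, w ^ n] := by
      funext i
      fin_cases i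
      · simp [hg]
      · simp [hg]
      · simp [hg]
    rw [h1, h0]

/-- `M = Ω(x, y, w)`, `R ⊆ B = Ω(x, y, w ^ n)`, `n = [M : B]`, and `F(x, y, w ^ n) = 0` for a polynomial
`F ≠ 0`, whose degree for the weights `a`, `b`, `2 * c` of the variables is at most `a + b + c`. For
example the elliptic surfaces `y ^ 2 = x ^ 3 + A(w ^ n) * x + B(w ^ n)`, where `deg A ≤ 2` and
`deg B ≤ 3` (the weights `2, 3, 2`, `c = 1`). -/
def IsPullback (Ω R M : Type) [Field Ω] [Field R] [Field M] [Algebra Ω M] [Algebra R M] : Prop :=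
  ∃ (n a b c : ℕ) (F : MvPolynomial (Fin 3) Ω) (x y w : M),
    (∀ r : R, algebraMap R M r ∈ adjoin Ω {x, y, w ^ n}) ∧ adjoin Ω {x, y, w} = ⊤ ∧
    Module.finrank (adjoin Ω {x, y, w ^ n}) M = n ∧ 0 < a + b + c ∧ F ≠ 0 ∧
    (∀ m ∈ F.support, a * m 0 + b * m 1 + 2 * c * m 2 ≤ a + b + c) ∧ aeval ![x, y, w ^ n] F = 0

theorem IsPullback.row {Ω R M : Type} [Field Ω] [IsAlgClosed Ω] [Field R] [Field M] [Algebra Ω R]
    [Algebra Ω M] [Algebra R M] [IsScalarTower Ω R M] [FiniteDimensional R M] [IsGalois R M]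
    (h : IsPullback Ω R M) : Uniruled Ω M 2 ∨ Row3 Ω R M := by
  classical
  obtain ⟨n, a, b, c, F, x, y, w, hR, hM, hn, hpos, hF, hd, h0⟩ := h
  have hd' : WLE ![a, b, 2 * c] (a + b + c) F := by
    intro m hm
    rw [Fin.sum_univ_three]
    exact hd m hm
  set t := w ^ n with ht
  have mt : t ∈ (adjoin Ω {x, y, t} : IntermediateField Ω M) := subset_adjoin _ _ (by simp)
  have hM' : adjoin Ω ((adjoin Ω {x, y, t} : Set M) ∪ {w}) = ⊤ := by
    rw [eq_top_iff, ← hM, adjoin_le_iff]
    rintro s (rfl | rfl | rfl)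
    · exact subset_adjoin _ _ (Or.inl (subset_adjoin _ _ (by simp)))
    · exact subset_adjoin _ _ (Or.inl (subset_adjoin _ _ (by simp)))
    · exact subset_adjoin _ _ (Or.inr rfl)
  obtain ⟨hn0, hn', hw⟩ := cyc_dataB (adjoin Ω {x, y, t}) w hR hM' hn mt
  rcases Nat.lt_or_ge 2 n with h3 | h3
  · -- the twist by `u ^ n = v * (1 - v)`
    right
    obtain ⟨e, he⟩ := acl_of_rel F hF ![x, y, t] h0
    have hset : ∀ {N : Type} (z : Fin 3 → N), ({z (e 0), z (e 1), z (e 2)} : Set N) =
        {z 0, z 1, z 2} := by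
      intro N z
      have h1 : ∀ q : Fin 3 → N, Set.range q = {q 0, q 1, q 2} := by
        intro q
        ext k
        constructor
        · rintro ⟨i, rfl⟩
          fin_cases i
          · exact Or.inl rfl
          · exact Or.inr (Or.inl rfl)
          · exact Or.inr (Or.inr rfl)
        · rintro (rfl | rfl | rfl)
          · exact ⟨0, rfl⟩
          · exact ⟨1, rfl⟩
          · exact ⟨2, rfl⟩
      have h2 := h1 (z ∘ e)
      rw [e.surjective.range_comp, h1 z] at h2
      exact h2.symm
    have hs0 : ({![x, y, t] (e 0), ![x, y, t] (e 1), ![x, y, t] (e 2)} : Set M) = {x, y, t} :=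
      hset ![x, y, t]
    refine ⟨n, 1, 1, ![x, y, t] (e 0), ![x, y, t] (e 1), ![x, y, t] (e 2), w, hn0, hn', by simp,
      ?_, ?_, ?_, he, ?_, ?_, ?_, hw (by omega), ?_, fun N _ _ g v s hv hs => ?_⟩
    · intro h
      have := Nat.le_of_dvd one_pos h
      omega
    · intro h
      have := Nat.le_of_dvd one_pos h
      omega
    · intro h
      have := Nat.le_of_dvd two_pos h
      omega
    · rw [hs0]
      exact hR
    · rw [eq_top_iff, ← hM, adjoin_le_iff]
      have h1 : ({x, y, t} : Set M) ⊆ {![x, y, t] (e 0), ![x, y, t] (e 1), ![x, y, t] (e 2), w} := by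
        rw [← hs0]
        rintro k (rfl | rfl | rfl)
        · exact Or.inl rfl
        · exact Or.inr (Or.inl rfl)
        · exact Or.inr (Or.inr (Or.inl rfl))
      rintro k (rfl | rfl | rfl)
      · exact subset_adjoin _ _ (h1 (by simp))
      · exact subset_adjoin _ _ (h1 (by simp))
      · exact subset_adjoin _ _ (by simp)
    · rw [hs0]
      exact hn
    · rw [hs0]
      exact mt
    · have hs1 : ({g (![x, y, t] (e 0)), g (![x, y, t] (e 1)), g (![x, y, t] (e 2)), v, s} : Set N) =
          {g x, g y, g t, v, s} := by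
        have h1 := hset (g ∘ ![x, y, t])
        have h2 : ∀ (p q r p' q' r' : N), ({p, q, r} : Set N) = {p', q', r'} →
            ({p, q, r, v, s} : Set N) = {p', q', r', v, s} := by
          intro p q r p' q' r' h
          have e1 : ∀ (p q r : N), ({p, q, r, v, s} : Set N) = {p, q, r} ∪ {v, s} := by
            intro p q r
            ext k
            simp only [Set.mem_insert_iff, Set.mem_singleton_iff, Set.mem_union]
            tauto
          rw [e1, e1, h]
        exact h2 _ _ _ _ _ _ h1
      rw [hs1]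
      rw [pow_one, pow_one] at hs
      have hv0 : v ≠ 0 := by
        rintro rfl
        exact hv (isAlgebraic_zero)
      have hv1 : 1 - v ≠ 0 := by
        intro h
        have h1 : v = 1 := by linear_combination -h
        rw [h1] at hv
        exact hv isAlgebraic_one
      have hs0 : s ≠ 0 := by
        rintro rfl
        rw [zero_pow hn0.ne', zero_mul] at hs
        exact mul_ne_zero hv0 hv1 hs
      have h4 : aeval ![g x, g y, g t] F = 0 := by
        have h5 : ![g x, g y, g t] = g ∘ ![x, y, t] := by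
          funext i
          fin_cases i <;> rfl
        rw [h5]
        have h6 : aeval (g ∘ ![x, y, t]) F = g (aeval ![x, y, t] F) := by
          rw [← AlgHom.comp_apply, comp_aeval]
          rfl
        rw [h6, h0, map_zero]
      refine uni_pull (n := n) hpos F hF hd' (g x) (g y) (g t) v s hs0 h4 ?_
      rw [hs, ht, map_pow]
  · -- `n = 1, 2`: the field `M` is uniruled
    left
    exact Pool.Agent.Helper75.TC.uniruled_of_gen hM (uni_low hn0 h3 F hF hd' hpos x y w h0)

end Pool.Agent.Helper73.V7
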