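import Pool.Agent.Helper35.V7.Row3
import Pool.Agent.Helper15.WC.RowM
import Pool.Agent.Helper9.TR.Row

/-! Project V7. The trinomial covers `w ^ n g ^ (s + t) = f ^ s h ^ t` as data of a uniruled twist. -/

set_option autoImplicit false

namespace Pool.Agent.Helper73.V7

open IntermediateField Pool.Agent.Helper75.QC Pool.Agent.Helper35.V7 Pool.Agent.Helper9.TR
  Pool.Agent.Helper40.SD

/-- **The trinomial covers.** -/
theorem tri_row3 {Ω R M : Type} [Field Ω] [IsAlgClosed Ω] [Field R] [Field M] [Algebra Ω R]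
    [Algebra Ω M] [Algebra R M] [IsScalarTower Ω R M] [FiniteDimensional R M] [IsGalois R M]
    (x y w : M) (hR : ∀ r : R, algebraMap R M r ∈ (adjoin Ω {x, y} : IntermediateField Ω M))
    (hM : adjoin Ω {x, y, w} = ⊤)
    (h : IsTrinomial Ω (Module.finrank (adjoin Ω {x, y} : IntermediateField Ω M) M) x y w) :
    Uniruled Ω M 2 ∨ Row3 Ω R M := by
  have hwn := trinomial_mem h
  obtain ⟨hn0, hcast, hw0⟩ := Pool.Agent.Helper15.WC.cyc_dataM x y w hR hM rfl hwn
  obtain ⟨n, hn⟩ : ∃ n, n = Module.finrank (adjoin Ω {x, y} : IntermediateField Ω M) M :=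
    ⟨_, rfl⟩
  rw [← hn] at h hwn hn0 hcast hw0
  rcases Nat.lt_or_ge 1 n with h1 | h1
  · have hw0' := hw0 h1
    rcases row_tri x y w hn0 hw0' h with h2 | ⟨α, β, hαβ, hα, hβ, hαβ', huni⟩
    · left
      rw [hM] at h2
      exact uniruled_of_hom (topEquiv (F := Ω) (E := M)).symm.toAlgHom h2
    · right
      refine Row3.of_rowDataM ⟨n, α, β, x, y, w, hn0, hcast, hαβ, hα, hβ, hαβ', hR, hM, hn.symm,
        hw0', hwn, fun N _ _ g v s hv hs => huni N g v s ?_ ?_ hs⟩
      · rintro rfl
        exact hv isAlgebraic_zero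
      · rintro rfl
        exact hv (isAlgebraic_algebraMap (1 : g.fieldRange))
  · left
    have hn1 : n = 1 := by omega
    refine Pool.Agent.Helper35.TD.uniruled_surface (n := 1) x y w hM ?_
    rwa [hn1, pow_one] at hwn

end Pool.Agent.Helper73.V7
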