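import Pool.Agent.Helper73.V7.Power

/-! Project V7. The general criterion: the twist by a curve `u ^ n = v ^ a * (1 - v) ^ b` is
uniruled. -/

set_option autoImplicit false

namespace Pool.Agent.Helper73.V7

open IntermediateField Pool.Agent.Helper75.QC Pool.Agent.Helper35.V7

/-- The data of `M / R`: `R ⊆ B`, `w` generates `M` over `B`, `w ^ n ∈ B`. -/
theorem cyc_dataB {Ω R M : Type} [Field Ω] [Field R] [Field M] [Algebra Ω R] [Algebra Ω M]
    [Algebra R M] [IsScalarTower Ω R M] [FiniteDimensional R M] [IsGalois R M]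
    (B : IntermediateField Ω M) (w : M) (hR : ∀ r : R, algebraMap R M r ∈ B)
    (hM : adjoin Ω ((B : Set M) ∪ {w}) = ⊤) {n : ℕ} (hn : Module.finrank B M = n)
    (hwn : w ^ n ∈ B) : 0 < n ∧ (n : Ω) ≠ 0 ∧ (1 < n → w ≠ 0) := by
  let _ : Algebra R B := RingHom.toAlgebra
    ({ toFun := fun r => ⟨algebraMap R M r, hR r⟩
       map_one' := Subtype.ext (map_one _)
       map_mul' := fun a b => Subtype.ext (map_mul _ a b)
       map_zero' := Subtype.ext (map_zero _)
       map_add' := fun a b => Subtype.ext (map_add _ a b) } : R →+* B)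
  have : IsScalarTower R B M := IsScalarTower.of_algebraMap_eq fun r => rfl
  have hfd : FiniteDimensional B M := FiniteDimensional.right R B M
  have hgal : IsGalois B M := IsGalois.tower_top_of_isGalois R B M
  have hn0 : 0 < n := by
    rw [← hn]
    exact Module.finrank_pos
  have hw : adjoin B {w} = ⊤ := by
    have h1 : ∀ k ∈ adjoin Ω ((B : Set M) ∪ {w}), k ∈ (adjoin B {w}).restrictScalars Ω := by
      have h2 : adjoin Ω ((B : Set M) ∪ {w}) ≤ (adjoin B {w}).restrictScalars Ω := by
        rw [adjoin_le_iff]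
        rintro s (hs | hs)
        · exact (adjoin B {w}).algebraMap_mem ⟨s, hs⟩
        · exact subset_adjoin B _ hs
      exact h2
    rw [eq_top_iff]
    intro k _
    exact h1 k (by rw [hM]; exact mem_top)
  refine ⟨hn0, ?_, fun h1 => ?_⟩
  · intro h0
    have hint : IsIntegral B w := Algebra.IsIntegral.isIntegral w
    have h1 : (minpoly B w).natDegree = n := by
      rw [← IntermediateField.adjoin.finrank hint, hw, IntermediateField.finrank_top', hn]
    have h2 : minpoly B w ∣ Polynomial.X ^ n - Polynomial.C ⟨w ^ n, hwn⟩ := by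
      apply minpoly.dvd
      rw [map_sub, Polynomial.aeval_X_pow, Polynomial.aeval_C]
      exact sub_self _
    have h3 : minpoly B w = Polynomial.X ^ n - Polynomial.C ⟨w ^ n, hwn⟩ := by
      refine (Polynomial.eq_of_monic_of_dvd_of_natDegree_le (minpoly.monic hint)
        (Polynomial.monic_X_pow_sub_C _ hn0.ne') h2 ?_).symm
      rw [Polynomial.natDegree_X_pow_sub_C, h1]
    have h4 : (minpoly B w).Separable := (inferInstance : Algebra.IsSeparable B M).isSeparable' w
    rw [h3, Polynomial.separable_def] at h4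
    have h5 : ((n : ℕ) : B) = 0 := by
      have h6 := congrArg (algebraMap Ω B) h0
      rwa [map_natCast, map_zero] at h6
    rw [Polynomial.derivative_sub, Polynomial.derivative_X_pow, Polynomial.derivative_C, h5, map_zero,
      zero_mul, sub_zero, isCoprime_zero_right] at h4
    have h7 := Polynomial.natDegree_eq_zero_of_isUnit h4
    rw [Polynomial.natDegree_X_pow_sub_C] at h7
    exact hn0.ne' h7
  · rintro rfl
    have h2 : adjoin B {(0 : M)} = ⊥ := by
      rw [adjoin_simple_eq_bot_iff]
      exact zero_mem _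
    rw [h2] at hw
    have h3 : Module.finrank B (⊥ : IntermediateField B M) = 1 := IntermediateField.finrank_bot
    rw [hw, IntermediateField.finrank_top', hn] at h3
    omega

/-- `M = B(w)`, `w ^ n ∈ B`, `n = [M : B]`, where `B = Ω(x, y, z)` is the function field of a surface
and contains `R`, and for the curve `C : u ^ n = v ^ a * (1 - v) ^ b` the threefold
`v ^ a * (1 - v) ^ b = (s * w) ^ n`, the quotient of the product of `C` and the surface with the
function field `M` by the cyclic group, is uniruled. -/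
def IsTwist (Ω R M : Type) [Field Ω] [Field R] [Field M] [Algebra Ω M] [Algebra R M] : Prop :=
  ∃ (n a b : ℕ) (x y z w : M), IsAlgebraic (adjoin Ω {x, y}) z ∧
    (∀ r : R, algebraMap R M r ∈ adjoin Ω {x, y, z}) ∧ adjoin Ω {x, y, z, w} = ⊤ ∧
    Module.finrank (adjoin Ω {x, y, z}) M = n ∧ w ^ n ∈ adjoin Ω {x, y, z} ∧
    (a.gcd b).Coprime n ∧ ¬ n ∣ a ∧ ¬ n ∣ b ∧ ¬ n ∣ a + b ∧
    ∀ (N : Type) [Field N] [Algebra Ω N] (g : M →ₐ[Ω] N) (v s : N),
      Transcendental g.fieldRange v → v ^ a * (1 - v) ^ b = (s * g w) ^ n →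
      Uniruled Ω (adjoin Ω {g x, g y, g z, v, s} : IntermediateField Ω N) 3

theorem IsTwist.row {Ω R M : Type} [Field Ω] [Field R] [Field M] [Algebra Ω R]
    [Algebra Ω M] [Algebra R M] [IsScalarTower Ω R M] [FiniteDimensional R M] [IsGalois R M]
    (h : IsTwist Ω R M) : Row3 Ω R M := by
  obtain ⟨n, a, b, x, y, z, w, hz, hR, hM, hn, hwn, hab, ha, hb, hab', huni⟩ := h
  have hM' : adjoin Ω ((adjoin Ω {x, y, z} : Set M) ∪ {w}) = ⊤ := by rw [← gen3 x y z w, hM]
  obtain ⟨hn0, hn', hw⟩ := cyc_dataB (adjoin Ω {x, y, z}) w hR hM' hn hwn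
  have hn1 : 1 < n := by
    rcases Nat.lt_or_ge 1 n with h | h
    · exact h
    · have h1 : n = 1 := by omega
      exact absurd (h1 ▸ one_dvd a) ha
  exact ⟨n, a, b, x, y, z, w, hn0, hn', hab, ha, hb, hab', hz, hR, hM, hn, hw hn1, hwn,
    fun N _ _ g v s hv hs => huni N g v s hv (by rw [hs, mul_pow])⟩

end Pool.Agent.Helper73.V7
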